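import Pool.Agent.Helper53.CL.G.GDefs

/-!
# CL-G00: transition maps are holomorphic or antiholomorphic

`τ = φ j ∘ (φ i).symm` is smooth on the open set `U = ((φ i).symm.trans (φ j)).source`, and by `trans_conf` (with
`x = (φ i).symm y`) `‖Dτ(y) v‖^2 = λ(y) ‖v‖^2`, `λ > 0`, for all `v`, `y ∈ U`.  `Dτ(y) v = dz τ y * v + dzb τ y * conj v`
(`dz`, `dzb` of the definitions), so `|p v + q conj v|^2 = λ |v|^2` for all `v`, `p = dz τ y`, `q = dzb τ y`: taking
`v = 1, I, 1 + I` gives `p q = 0`, and `|p|^2 + |q|^2 = λ > 0`.  `p, q` are continuous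
functions of `y`; where `p ≠ 0`, `q = 0`, so `{p ≠ 0}` and `{q ≠ 0}` are disjoint open sets covering `U`.
-/

namespace Pool.Agent.Helper53.CL.G

open MeasureTheory Filter Topology Metric Set Pool.Agent.Helper53.CL.F
open scoped ContDiff Real ENNReal

variable {S : Type*} [TopologicalSpace S] [MeasurableSpace S]

/-- The real derivative in terms of the Wirtinger derivatives. -/
theorem fderiv_eq_dz {f : ℂ → ℂ} {z : ℂ} (v : ℂ) :
    fderiv ℝ f z v = dz f z * v + dzb f z * (starRingEnd ℂ) v := by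
  have h1 : v = v.re • (1 : ℂ) + v.im • Complex.I := by
    apply Complex.ext <;> simp
  have h2 : fderiv ℝ f z v = (v.re : ℂ) * dx f z + (v.im : ℂ) * dy f z := by
    conv_lhs => rw [h1]
    rw [map_add, map_smul, map_smul]
    simp [dx, dy, Complex.real_smul]
  rw [h2]
  have h3 : v = v.re + v.im * Complex.I := (Complex.re_add_im v).symm
  have h4 : (starRingEnd ℂ) v = v.re - v.im * Complex.I := by
    apply Complex.ext <;> simp
  rw [h4]
  conv_rhs => rw [h3]
  unfold dz dzb
  simp only [Complex.add_re, Complex.ofReal_re, Complex.mul_re, Complex.I_re, mul_zero, Complex.ofReal_im,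
    Complex.I_im, mul_one, sub_self, add_zero, Complex.add_im, Complex.mul_im, zero_add]
  have hI : Complex.I ^ 2 = -1 := Complex.I_sq
  linear_combination ((v.im : ℂ) * dy f z) * hI

/-- `|p v + q conj v|^2 = l |v|^2` for all `v` implies that `p` or `q` is zero. -/
theorem conf_alg {p q : ℂ} {l : ℝ} (h : ∀ v : ℂ, ‖p * v + q * (starRingEnd ℂ) v‖ ^ 2 = l * ‖v‖ ^ 2) :
    (p = 0 ∨ q = 0) ∧ ‖p‖ ^ 2 + ‖q‖ ^ 2 = l := by
  have e : ∀ w : ℂ, ‖w‖ ^ 2 = w.re ^ 2 + w.im ^ 2 := by
    intro w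
    rw [← Complex.normSq_eq_norm_sq, Complex.normSq_apply]; ring
  have h1 := h 1
  have h2 := h Complex.I
  have h3 := h (1 + Complex.I)
  simp only [e] at h1 h2 h3 ⊢
  simp only [Complex.add_re, Complex.mul_re, Complex.add_im, Complex.mul_im, Complex.conj_re, Complex.conj_im,
    Complex.one_re, Complex.one_im, Complex.I_re, Complex.I_im, map_one, map_add] at h1 h2 h3
  have a1 : p.re * q.re + p.im * q.im = 0 := by nlinarith
  have a2 : p.re * q.im - p.im * q.re = 0 := by nlinarith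
  have a3 : (p.re ^ 2 + p.im ^ 2) * (q.re ^ 2 + q.im ^ 2) = 0 := by
    have : (p.re ^ 2 + p.im ^ 2) * (q.re ^ 2 + q.im ^ 2) =
        (p.re * q.re + p.im * q.im) ^ 2 + (p.re * q.im - p.im * q.re) ^ 2 := by ring
    rw [this, a1, a2]; ring
  refine ⟨?_, by nlinarith⟩
  rcases mul_eq_zero.1 a3 with h0 | h0
  · left
    apply Complex.ext
    · simp only [Complex.zero_re]; nlinarith [sq_nonneg p.re, sq_nonneg p.im]
    · simp only [Complex.zero_im]; nlinarith [sq_nonneg p.re, sq_nonneg p.im]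
  · right
    apply Complex.ext
    · simp only [Complex.zero_re]; nlinarith [sq_nonneg q.re, sq_nonneg q.im]
    · simp only [Complex.zero_im]; nlinarith [sq_nonneg q.re, sq_nonneg q.im]

theorem trans_holo (C : CSurf S) (i j : Fin C.n) {z : ℂ} (hz : z ∈ ((C.φ i).symm.trans (C.φ j)).source) :
    (∀ᶠ y in 𝓝 z, dzb (C.φ j ∘ (C.φ i).symm) y = 0 ∧ dz (C.φ j ∘ (C.φ i).symm) y ≠ 0) ∨
    (∀ᶠ y in 𝓝 z, dz (C.φ j ∘ (C.φ i).symm) y = 0 ∧ dzb (C.φ j ∘ (C.φ i).symm) y ≠ 0) := by
  set τ : ℂ → ℂ := C.φ j ∘ (C.φ i).symm with hτ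
  set U := ((C.φ i).symm.trans (C.φ j)).source with hU
  have hUo : IsOpen U := ((C.φ i).symm.trans (C.φ j)).open_source
  have key : ∀ y ∈ U, (dz τ y = 0 ∨ dzb τ y = 0) ∧ 0 < ‖dz τ y‖ ^ 2 + ‖dzb τ y‖ ^ 2 := by
    intro y hy
    have hy1 : y ∈ (C.φ i).target := by
      have := hy; rw [hU, OpenPartialHomeomorph.trans_source] at this; exact this.1
    have hy2 : (C.φ i).symm y ∈ (C.φ j).source := by
      have := hy; rw [hU, OpenPartialHomeomorph.trans_source] at this; exact this.2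
    have hx1 : (C.φ i).symm y ∈ (C.φ i).source := (C.φ i).map_target hy1
    have hR : C.φ i ((C.φ i).symm y) = y := (C.φ i).right_inv hy1
    have hρ1 : 0 < C.ρ i y := C.ρ_pos i y (by rw [← C.target i]; exact hy1)
    have hρ2 : 0 < C.ρ j (C.φ j ((C.φ i).symm y)) :=
      C.ρ_pos j _ (by rw [← C.target j]; exact (C.φ j).map_source hy2)
    have hc := C.trans_conf i j _ hx1 hy2
    rw [hR] at hc
    have h := @conf_alg (dz τ y) (dzb τ y) (C.ρ i y / C.ρ j (C.φ j ((C.φ i).symm y))) (by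
      intro v
      rw [← fderiv_eq_dz, div_mul_eq_mul_div, eq_div_iff hρ2.ne', ← hc v]; ring)
    exact ⟨h.1, by rw [h.2]; positivity⟩
  have hsm : ContDiffOn ℝ ∞ τ U := C.trans_smooth i j
  have hfd : ContinuousOn (fderiv ℝ τ) U := hsm.continuousOn_fderiv_of_isOpen hUo (by simp)
  have hcx : ContinuousOn (dx τ) U := fun y hy => (hfd y hy).clm_apply continuousWithinAt_const
  have hcy : ContinuousOn (dy τ) U := fun y hy => (hfd y hy).clm_apply continuousWithinAt_const
  have hcz : ContinuousOn (dz τ) U := by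
    unfold dz
    exact (hcx.sub (continuousOn_const.mul hcy)).div_const _
  have hcb : ContinuousOn (dzb τ) U := by
    unfold dzb
    exact (hcx.add (continuousOn_const.mul hcy)).div_const _
  have hUn : U ∈ 𝓝 z := hUo.mem_nhds hz
  obtain ⟨k1, k2⟩ := key z hz
  rcases k1 with h0 | h0
  · right
    have hb : dzb τ z ≠ 0 := by
      intro h; rw [h0, h] at k2; simp at k2
    filter_upwards [hUn, (hcb.continuousAt hUn).eventually_ne hb] with y hy hne
    exact ⟨(key y hy).1.resolve_right hne, hne⟩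
  · left
    have hb : dz τ z ≠ 0 := by
      intro h; rw [h0, h] at k2; simp at k2
    filter_upwards [hUn, (hcz.continuousAt hUn).eventually_ne hb] with y hy hne
    exact ⟨(key y hy).1.resolve_left hne, hne⟩

end Pool.Agent.Helper53.CL.G
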