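import Pool.Agent.Helper53.CL.G.G00

/-!
# CL-G01: the geodesic equation does not depend on the chart (about 200 lines)

Let `c = φ i ∘ γ`, `e = φ j ∘ γ`; near `t` (by continuity of `γ` at `t`) `γ s ∈ (φ i).source ∩ (φ j).source`... only
`ContinuousAt γ t` is known, and the sources are open, so this holds for `s` near `t`; there `e s = τ (c s)`,
`τ = φ j ∘ (φ i).symm`, smooth near `c t`.  So `e` is `C^2` at `t`, `e' = Dτ(c) c'` near `t`.
Let `a = C.a w i`, `b = C.a w j`: `b(τ y) ‖Dτ(y) v‖^2 = a y ‖v‖^2` near `c t` (`trans_conf` times `w`); this gives the speed.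
Holomorphic case (`trans_holo`): `dzb τ = 0` near `c t`, `p = dz τ ≠ 0`, `p` is again holomorphic (`dzb p = dz (dzb τ) = 0`,
symmetry of second derivatives), `e' = p(c) c'`, `e'' = (dz p)(c) c'^2 + p(c) c''`; `a = b(τ) |p|^2`, so
`∂ log a = (∂ log b)(τ) p + (dz p)/p` (`∂ log |p|^2 = (dz p)/p`).  With `c'' = -(∂ log a)(c) c'^2`:
`e'' = -(∂ log b)(e) (p c')^2 = -(∂ log b)(e) e'^2`.
Antiholomorphic case: `dz τ = 0`, `q = dzb τ`, `e' = q(c) conj c'`, `dz q = 0`; `a = b(τ) |q|^2`,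
`∂ log a = conj((∂ log b)(τ)) conj q + conj(dzb q)/conj q`; `e'' = (dzb q)(c) (conj c')^2 + q conj c''`
`= (dzb q)(conj c')^2 - q ((∂ log b)(e) q + (dzb q)/q) (conj c')^2 = -(∂ log b)(e) e'^2`.
`vel_change`: the chain rule at `t`.
-/

namespace Pool.Agent.Helper53.CL.G

open MeasureTheory Filter Topology Metric Set Pool.Agent.Helper53.CL.F
open scoped ContDiff Real ENNReal

variable {S : Type*} [TopologicalSpace S] [MeasurableSpace S]

/-- the derivative of a real function in terms of its Wirtinger derivative -/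
theorem g01_dz {f : ℂ → ℝ} {z : ℂ} (hf : DifferentiableAt ℝ f z) (v : ℂ) :
    fderiv ℝ f z v = 2 * (dz (fun z => (f z : ℂ)) z * v).re := by
  have h1 : HasFDerivAt (fun z => (f z : ℂ)) (Complex.ofRealCLM.comp (fderiv ℝ f z)) z :=
    Complex.ofRealCLM.hasFDerivAt.comp z hf.hasFDerivAt
  have h2 : ∀ u, fderiv ℝ (fun z => (f z : ℂ)) z u = ((fderiv ℝ f z u : ℝ) : ℂ) := by
    intro u
    rw [h1.fderiv]
    rfl
  have h3 : fderiv ℝ f z v = fderiv ℝ f z 1 * v.re + fderiv ℝ f z Complex.I * v.im := by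
    have h4 : v = v.re • (1 : ℂ) + v.im • Complex.I := by
      apply Complex.ext <;> simp
    conv_lhs => rw [h4]
    rw [map_add, map_smul, map_smul, smul_eq_mul, smul_eq_mul]
    ring
  unfold dz dx dy
  rw [h2, h2, h3]
  simp only [Complex.mul_re, Complex.div_ofNat_re, Complex.div_ofNat_im, Complex.sub_re,
    Complex.sub_im, Complex.mul_im, Complex.ofReal_re, Complex.ofReal_im, Complex.I_re,
    Complex.I_im]
  ring

theorem g01_eq {A B : ℂ} (h : ∀ u : ℂ, (A * u).re = (B * u).re) : A = B := by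
  have h1 := h 1
  have h2 := h Complex.I
  simp only [mul_one, Complex.mul_I_re, neg_inj] at h1 h2
  exact Complex.ext h1 h2

theorem g01_derivd {c : ℝ → ℂ} {t : ℝ} (hc : ContDiffAt ℝ 2 c t) : DifferentiableAt ℝ (deriv c) t := by
  have h1 : ContDiffAt ℝ 1 (fderiv ℝ c) t := hc.fderiv_right (by norm_num)
  have h2 : DifferentiableAt ℝ (fderiv ℝ c) t := h1.differentiableAt (by norm_num)
  have h3 : deriv c = fun s => fderiv ℝ c s 1 := by
    funext s
    exact (fderiv_apply_one_eq_deriv).symm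
  rw [h3]
  exact h2.clm_apply (differentiableAt_const _)

theorem g01_core {a b : ℂ → ℝ} {c e : ℝ → ℂ} {t : ℝ} {τ : ℂ → ℂ} {κ : ℂ →L[ℝ] ℂ}
    (hκm : ∀ u v, κ (u * v) = κ u * κ v) (hκr : ∀ u, (κ u).re = u.re) (hκκ : ∀ u, κ (κ u) = u) (hκ1 : κ 1 = 1)
    (hκn : ∀ u, ‖κ u‖ = ‖u‖)
    (hτc : ContDiffAt ℝ 2 τ (c t)) (hτ : ∀ᶠ y in 𝓝 (c t), ∀ v, fderiv ℝ τ y v = fderiv ℝ τ y 1 * κ v)
    (hp0 : fderiv ℝ τ (c t) 1 ≠ 0) (ha : DifferentiableAt ℝ a (c t)) (hb : DifferentiableAt ℝ b (τ (c t)))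
    (hapos : 0 < a (c t)) (hbpos : 0 < b (τ (c t)))
    (hab : ∀ᶠ y in 𝓝 (c t), a y = b (τ y) * ‖fderiv ℝ τ y 1‖ ^ 2)
    (he : e =ᶠ[𝓝 t] τ ∘ c) (hc : GA a c t) : GA b e t := by
  obtain ⟨hcd, hsp, hac⟩ := hc
  set z : ℂ := c t with hz
  set p : ℂ → ℂ := fun y => fderiv ℝ τ y 1 with hp
  have hcc : ContinuousAt c t := hcd.continuousAt
  have hcd1 : DifferentiableAt ℝ c t := hcd.differentiableAt (by norm_num)
  have hcd2 : DifferentiableAt ℝ (deriv c) t := g01_derivd hcd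
  have hcev : ∀ᶠ s in 𝓝 t, DifferentiableAt ℝ c s :=
    (hcd.eventually (by norm_num)).mono fun s hs => hs.differentiableAt (by norm_num)
  have hτev : ∀ᶠ y in 𝓝 z, DifferentiableAt ℝ τ y :=
    (hτc.eventually (by norm_num)).mono fun s hs => hs.differentiableAt (by norm_num)
  -- `p` is differentiable at `z`
  have hfd : DifferentiableAt ℝ (fderiv ℝ τ) z :=
    (hτc.fderiv_right (m := 1) (by norm_num)).differentiableAt (by norm_num)
  have hpd : DifferentiableAt ℝ p z := hfd.clm_apply (differentiableAt_const _)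
  set P : ℂ →L[ℝ] ℂ := fderiv ℝ p z with hP
  have hpP : HasFDerivAt p P z := hpd.hasFDerivAt
  -- symmetry of the second derivative
  have hsym : ∀ u, P u = P 1 * κ u := by
    have h1 : ∀ᶠ y in 𝓝 z, HasFDerivAt τ (p y • κ) y := by
      filter_upwards [hτ, hτev] with y hy hy'
      have h2 : fderiv ℝ τ y = p y • κ := by
        ext1 v
        rw [hy v]
        rfl
      rw [← h2]
      exact hy'.hasFDerivAt
    have h3 : HasFDerivAt (fun y => p y • κ) (P.smulRight κ) z := hpP.smul_const κ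
    intro u
    have h4 := second_derivative_symmetric_of_eventually h1 h3 u 1
    simp only [ContinuousLinearMap.smulRight_apply, smul_apply, hκ1, smul_eq_mul, mul_one] at h4
    exact h4
  -- the velocity
  have hev : deriv e =ᶠ[𝓝 t] fun s => p (c s) * κ (deriv c s) := by
    have h1 : deriv e =ᶠ[𝓝 t] deriv (τ ∘ c) := he.deriv
    have h2 : ∀ᶠ s in 𝓝 t, deriv (τ ∘ c) s = p (c s) * κ (deriv c s) := by
      filter_upwards [hcev, hcc.eventually hτ, hcc.eventually hτev] with s h3 h4 h5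
      rw [← h4]
      exact (h5.hasFDerivAt.comp_hasDerivAt s h3.hasDerivAt).deriv
    exact h1.trans h2
  have het : e t = τ z := he.eq_of_nhds
  have he' : deriv e t = p z * κ (deriv c t) := hev.eq_of_nhds
  have hab0 : a z = b (τ z) * ‖p z‖ ^ 2 := hab.self_of_nhds
  refine ⟨?_, ?_, ?_⟩
  · exact (hτc.comp t hcd).congr_of_eventuallyEq he
  · rw [het, he', norm_mul, mul_pow, hκn, ← mul_assoc, ← hab0]
    exact hsp
  · -- the second derivative
    set A : ℂ := dz (fun z => (Real.log (a z) : ℂ)) z with hA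
    set B : ℂ := dz (fun z => (Real.log (b z) : ℂ)) (τ z) with hB
    have hrel : κ A = B * p z + P 1 / p z := by
      apply g01_eq
      intro u
      have hla : DifferentiableAt ℝ (fun y => Real.log (a y)) z := ha.log hapos.ne'
      have hlb : DifferentiableAt ℝ (fun y => Real.log (b y)) (τ z) := hb.log hbpos.ne'
      have h1 := g01_dz hla (κ u)
      have hN : HasFDerivAt (fun y => ‖p y‖ ^ 2) (2 • (innerSL ℝ (p z)).comp P) z := hpP.norm_sq
      have hN0 : ‖p z‖ ^ 2 ≠ 0 := by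
        have : ‖p z‖ ≠ 0 := norm_ne_zero_iff.2 hp0
        positivity
      have hlN := hN.log hN0
      have hτz : HasFDerivAt τ (fderiv ℝ τ z) z := (hτc.differentiableAt (by norm_num)).hasFDerivAt
      have hlbτ := hlb.hasFDerivAt.comp z hτz
      have hsum := hlbτ.add hlN
      have hev2 : (fun y => Real.log (a y)) =ᶠ[𝓝 z] fun y => ((fun y => Real.log (b y)) ∘ τ) y + Real.log (‖p y‖ ^ 2) := by
        have hb1 : ∀ᶠ y in 𝓝 z, b (τ y) ≠ 0 := by
          have : ContinuousAt (fun y => b (τ y)) z := ContinuousAt.comp (f := τ) (g := b) hb.continuousAt hτc.continuousAt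
          exact this.eventually_ne hbpos.ne'
        have hp1 : ∀ᶠ y in 𝓝 z, ‖p y‖ ^ 2 ≠ 0 := by
          have : ContinuousAt (fun y => ‖p y‖ ^ 2) z := hN.continuousAt
          exact this.eventually_ne hN0
        filter_upwards [hab, hb1, hp1] with y h5 h6 h7
        rw [h5, Real.log_mul h6 h7]
        rfl
      have h8 : fderiv ℝ (fun y => Real.log (a y)) z = _ := (hsum.congr_of_eventuallyEq hev2).fderiv
      rw [h8] at h1
      have h9 := g01_dz hlb (fderiv ℝ τ z (κ u))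
      have h10 : fderiv ℝ τ z (κ u) = p z * u := by
        rw [hτ.self_of_nhds, hκκ]
      rw [h10] at h9
      simp only [add_apply, ContinuousLinearMap.comp_apply, smul_apply] at h1
      rw [h10, h9, hsym, hκκ] at h1
      have h11 : (κ A * u).re = (A * κ u).re := by
        rw [← hκr (A * κ u), hκm, hκκ]
      have h12 : (P 1 / p z * u).re = (‖p z‖ ^ 2)⁻¹ * ((innerSL ℝ) (p z)) (P 1 * u) := by
        have e1 : P 1 / p z * u = (((‖p z‖ ^ 2)⁻¹ : ℝ) : ℂ) * ((starRingEnd ℂ) (p z) * (P 1 * u)) := by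
          rw [div_eq_mul_inv, Complex.inv_def, Complex.normSq_eq_norm_sq]
          ring
        rw [e1, Complex.re_ofReal_mul, innerSL_apply_apply, Complex.inner]
        rw [mul_comm ((starRingEnd ℂ) (p z))]
      rw [add_mul, Complex.add_re, h12, h11, mul_assoc B]
      simp only [smul_eq_mul, nsmul_eq_mul, Nat.cast_ofNat] at h1
      rw [← hA, ← hB] at h1
      linarith
    have h1 : HasDerivAt (fun s => p (c s)) (P (deriv c t)) t := hpP.comp_hasDerivAt t hcd1.hasDerivAt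
    have h2 : HasDerivAt (fun s => κ (deriv c s)) (κ (deriv (deriv c) t)) t :=
      κ.hasFDerivAt.comp_hasDerivAt t hcd2.hasDerivAt
    have h3 := h1.mul h2
    have h5 : deriv (fun s => p (c s) * κ (deriv c s)) t = _ := h3.deriv
    rw [hev.deriv_eq, h5, hac, het, he', hsym]
    have h4 : κ (-A * deriv c t ^ 2) = -(κ A * κ (deriv c t) ^ 2) := by
      rw [neg_mul, map_neg, hκm, sq, hκm, sq]
    show _ = -B * _
    rw [h4, hrel]
    have hpz : p z ≠ 0 := hp0
    field_simp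
    ring

theorem a_smooth (C : CSurf S) {w : S → ℝ} (hw : C.IsSmooth w) (i : Fin C.n) :
    ContDiffOn ℝ ∞ (C.a w i) (ball 0 3) := (C.ρ_smooth i).mul (hw i)

theorem a_pos (C : CSurf S) {w : S → ℝ} (hp : ∀ x, 0 < w x) (i : Fin C.n) {z : ℂ} (hz : z ∈ ball (0 : ℂ) 3) :
    0 < C.a w i z := mul_pos (C.ρ_pos i z hz) (hp _)

theorem g01_mem (C : CSurf S) {i j : Fin C.n} {x : S} (hi : x ∈ (C.φ i).source) (hj : x ∈ (C.φ j).source) :
    C.φ i x ∈ ((C.φ i).symm.trans (C.φ j)).source := by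
  rw [OpenPartialHomeomorph.trans_source, OpenPartialHomeomorph.symm_source]
  refine ⟨(C.φ i).map_source hi, ?_⟩
  rw [mem_preimage, (C.φ i).left_inv hi]
  exact hj

theorem g01_smooth (C : CSurf S) {i j : Fin C.n} {x : S} (hi : x ∈ (C.φ i).source) (hj : x ∈ (C.φ j).source) :
    ContDiffAt ℝ ∞ (C.φ j ∘ (C.φ i).symm) (C.φ i x) :=
  (C.trans_smooth i j).contDiffAt (((C.φ i).symm.trans (C.φ j)).open_source.mem_nhds (g01_mem C hi hj))

theorem g01_ev (C : CSurf S) {i j : Fin C.n} {γ : ℝ → S} {t : ℝ} (hi : γ t ∈ (C.φ i).source)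
    (hγ : ContinuousAt γ t) : (C.φ j ∘ γ) =ᶠ[𝓝 t] (C.φ j ∘ (C.φ i).symm) ∘ (C.φ i ∘ γ) := by
  filter_upwards [hγ.eventually ((C.φ i).open_source.mem_nhds hi)] with s hs
  simp only [Function.comp_apply, (C.φ i).left_inv hs]

theorem vel_change (C : CSurf S) {i j : Fin C.n} {γ : ℝ → S} {t : ℝ} (hi : γ t ∈ (C.φ i).source)
    (hj : γ t ∈ (C.φ j).source) (hγ : ContinuousAt γ t) (hd : DifferentiableAt ℝ (C.φ i ∘ γ) t) :
    deriv (C.φ j ∘ γ) t = fderiv ℝ (C.φ j ∘ (C.φ i).symm) (C.φ i (γ t)) (deriv (C.φ i ∘ γ) t) := by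
  rw [(g01_ev C (j := j) hi hγ).deriv_eq]
  have h1 : HasFDerivAt (C.φ j ∘ (C.φ i).symm) (fderiv ℝ (C.φ j ∘ (C.φ i).symm) (C.φ i (γ t))) ((C.φ i ∘ γ) t) :=
    ((g01_smooth C hi hj).differentiableAt (by simp)).hasFDerivAt
  exact (h1.comp_hasDerivAt t hd.hasDerivAt).deriv

theorem ga_change (C : CSurf S) {w : S → ℝ} (hw : C.IsSmooth w) (hp : ∀ x, 0 < w x) {i j : Fin C.n} {γ : ℝ → S} {t : ℝ}
    (hi : γ t ∈ (C.φ i).source) (hj : γ t ∈ (C.φ j).source) (hγ : ContinuousAt γ t)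
    (h : GA (C.a w i) (C.φ i ∘ γ) t) : GA (C.a w j) (C.φ j ∘ γ) t := by
  set τ : ℂ → ℂ := C.φ j ∘ (C.φ i).symm with hτ
  have hmem := g01_mem C hi hj
  have hopen := ((C.φ i).symm.trans (C.φ j)).open_source
  have hU := hopen.mem_nhds hmem
  have hsm : ContDiffAt ℝ 2 τ ((C.φ i ∘ γ) t) := (g01_smooth C hi hj).of_le (by norm_cast)
  have hti : (C.φ i) (γ t) ∈ ball (0 : ℂ) 3 := by rw [← C.target i]; exact (C.φ i).map_source hi
  have htj : (C.φ j) (γ t) ∈ ball (0 : ℂ) 3 := by rw [← C.target j]; exact (C.φ j).map_source hj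
  have hτz : τ ((C.φ i ∘ γ) t) = C.φ j (γ t) := by
    simp only [hτ, Function.comp_apply, (C.φ i).left_inv hi]
  have ha : DifferentiableAt ℝ (C.a w i) ((C.φ i ∘ γ) t) :=
    ((a_smooth C hw i).contDiffAt (isOpen_ball.mem_nhds hti)).differentiableAt (by simp)
  have hb : DifferentiableAt ℝ (C.a w j) (τ ((C.φ i ∘ γ) t)) := by
    rw [hτz]
    exact ((a_smooth C hw j).contDiffAt (isOpen_ball.mem_nhds htj)).differentiableAt (by simp)
  have hap : 0 < C.a w i ((C.φ i ∘ γ) t) := a_pos C hp i hti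
  have hbp : 0 < C.a w j (τ ((C.φ i ∘ γ) t)) := by rw [hτz]; exact a_pos C hp j htj
  have hab : ∀ᶠ y in 𝓝 ((C.φ i ∘ γ) t), C.a w i y = C.a w j (τ y) * ‖fderiv ℝ τ y 1‖ ^ 2 := by
    filter_upwards [hU] with y hy
    rw [OpenPartialHomeomorph.trans_source, OpenPartialHomeomorph.symm_source] at hy
    have h1 := C.trans_conf i j ((C.φ i).symm y) ((C.φ i).map_target hy.1) hy.2 1
    rw [(C.φ i).right_inv hy.1, norm_one, one_pow, mul_one] at h1
    unfold CSurf.a
    have h2 : (C.φ j).symm (τ y) = (C.φ i).symm y := (C.φ j).left_inv hy.2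
    rw [h2, ← h1]
    simp only [hτ, Function.comp_apply]
    ring
  have hfd := fun (y v : ℂ) => fderiv_eq_dz (f := τ) (z := y) v
  have hev := g01_ev C (j := j) hi hγ
  rcases trans_holo C i j hmem with hh | hh
  · -- the holomorphic case
    have h1 : ∀ᶠ y in 𝓝 ((C.φ i ∘ γ) t), ∀ v, fderiv ℝ τ y v = fderiv ℝ τ y 1 * (ContinuousLinearMap.id ℝ ℂ) v := by
      filter_upwards [hh] with y hy v
      rw [hfd y v, hfd y 1, hy.1]
      simp
    have h0 : fderiv ℝ τ ((C.φ i ∘ γ) t) 1 ≠ 0 := by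
      rw [hfd]
      have := hh.self_of_nhds
      rw [Function.comp_apply, this.1]
      simpa using this.2
    exact g01_core (fun u v => rfl) (fun u => rfl) (fun u => rfl) rfl (fun u => rfl) hsm h1 h0 ha hb hap hbp hab hev h
  · -- the antiholomorphic case
    have h1 : ∀ᶠ y in 𝓝 ((C.φ i ∘ γ) t), ∀ v, fderiv ℝ τ y v = fderiv ℝ τ y 1 * (Complex.conjCLE : ℂ →L[ℝ] ℂ) v := by
      filter_upwards [hh] with y hy v
      rw [hfd y v, hfd y 1, hy.1]
      simp
    have h0 : fderiv ℝ τ ((C.φ i ∘ γ) t) 1 ≠ 0 := by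
      rw [hfd]
      have := hh.self_of_nhds
      rw [Function.comp_apply, this.1]
      simpa using this.2
    exact g01_core (fun u v => by simp) (fun u => by simp) (fun u => by simp) (by simp) (fun u => by simp)
      hsm h1 h0 ha hb hap hbp hab hev h

end Pool.Agent.Helper53.CL.G
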