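import Pool.Agent.Helper53.CL.G.G01

/-!
# CL-G02: uniqueness of geodesics, shifts and reversals (about 250 lines)

`ga_unique`: `(c, c')` solves the first order system `(x, v)' = (v, -(∂ log a)(x) v^2)` with a `C^1` (smooth) right side on
`ball 0 3 × ℂ`: the set of times where `(c₁, c₁') = (c₂, c₂')` is closed and open in `Ioo α β`
(`ODE_solution_unique_of_eventually` or the local Lipschitz property), `isPreconnected_Ioo`.
`geoOn_unique`: `R = {t ∈ Ioo α β | γ t = σ t ∧ ∀ i, γ t ∈ (φ i).source → deriv (φ i ∘ γ) t = deriv (φ i ∘ σ) t}`; equality of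
the velocities in one chart gives it in all charts (`vel_change`).  `R` is open in `Ioo α β` by `ga_unique` in a chart about
`γ t` (both curves stay in the source of the chart for a short time), relatively closed: at a limit point `t` of `R`,
`γ t = σ t` (`T2Space`), and in a chart about `γ t` the velocities are continuous.
`geo_unique` is the case of the whole line after a shift; `geo_iff`: `IsGeo` is `GeoOn` on all intervals (definition).
`geo_shift`, `geo_neg`, `geoOn_shift`, `geoOn_neg`: the equation is invariant under `t ↦ t + s` and `t ↦ -t` (`deriv_comp_neg`,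
`deriv_comp_add_const`).
-/

namespace Pool.Agent.Helper53.CL.G

open MeasureTheory Filter Topology Metric Set Pool.Agent.Helper53.CL.F
open scoped ContDiff Real ENNReal

private theorem deriv_contDiffAt {c : ℝ → ℂ} {t : ℝ} (h : ContDiffAt ℝ 2 c t) : ContDiffAt ℝ 1 (deriv c) t := by
  have h1 : ContDiffAt ℝ 1 (fderiv ℝ c) t := h.fderiv_right (m := 1) (by norm_num)
  exact h1.clm_apply contDiffAt_const

/-- a relatively closed and open set of times -/
private theorem interval_aux {R : Set ℝ} {α β t₀ : ℝ} (ht : t₀ ∈ Ioo α β) (h0 : t₀ ∈ R)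
    (hopen : ∀ t ∈ Ioo α β, t ∈ R → ∀ᶠ s in 𝓝 t, s ∈ R)
    (hclosed : ∀ t ∈ Ioo α β, t ∈ closure (Ioo α β ∩ R) → t ∈ R) : ∀ t ∈ Ioo α β, t ∈ R := by
  have hu : IsOpen (Ioo α β ∩ R) := by
    rw [isOpen_iff_mem_nhds]
    rintro t ⟨h1, h2⟩
    exact inter_mem (Ioo_mem_nhds h1.1 h1.2) (hopen t h1 h2)
  have hsub := isPreconnected_Ioo.subset_of_closure_inter_subset (s := Ioo α β) hu ⟨t₀, ht, ht, h0⟩
    (fun t h => ⟨h.2, hclosed t h.2 h.1⟩)
  exact fun t h => (hsub h).2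

/-- the first order system -/
private noncomputable def vf (a : ℂ → ℝ) (q : ℂ × ℂ) : ℂ × ℂ :=
  (q.2, -dz (fun z => (Real.log (a z) : ℂ)) q.1 * q.2 ^ 2)

private theorem vf_smooth {a : ℂ → ℝ} (ha : ContDiffOn ℝ ∞ a (ball 0 3)) (hp : ∀ z ∈ ball (0 : ℂ) 3, 0 < a z)
    {q : ℂ × ℂ} (hq : q.1 ∈ ball (0 : ℂ) 3) : ContDiffAt ℝ 1 (vf a) q := by
  have hl : ContDiffOn ℝ ∞ (fun z => ((Real.log (a z) : ℝ) : ℂ)) (ball 0 3) :=
    Complex.ofRealCLM.contDiff.comp_contDiffOn (ha.log fun z hz => (hp z hz).ne')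
  have hf : ContDiffOn ℝ ∞ (fderiv ℝ (fun z => ((Real.log (a z) : ℝ) : ℂ))) (ball 0 3) :=
    hl.fderiv_of_isOpen isOpen_ball (by norm_num)
  have hfa : ContDiffAt ℝ 1 (fderiv ℝ (fun z => ((Real.log (a z) : ℝ) : ℂ))) q.1 :=
    (hf.contDiffAt (isOpen_ball.mem_nhds hq)).of_le (by exact_mod_cast le_top)
  have hdz : ContDiffAt ℝ 1 (dz (fun z => ((Real.log (a z) : ℝ) : ℂ))) q.1 := by
    have h1 : ContDiffAt ℝ 1 (fun z => fderiv ℝ (fun z => ((Real.log (a z) : ℝ) : ℂ)) z 1) q.1 :=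
      hfa.clm_apply contDiffAt_const
    have h2 : ContDiffAt ℝ 1 (fun z => fderiv ℝ (fun z => ((Real.log (a z) : ℝ) : ℂ)) z Complex.I) q.1 :=
      hfa.clm_apply contDiffAt_const
    exact (h1.sub (contDiffAt_const.mul h2)).div_const 2
  have h3 : ContDiffAt ℝ 1 (fun q : ℂ × ℂ => dz (fun z => ((Real.log (a z) : ℝ) : ℂ)) q.1) q :=
    ContDiffAt.comp q hdz contDiffAt_fst
  exact contDiffAt_snd.prodMk ((h3.neg).mul (contDiffAt_snd.pow 2))

private theorem ga_hasDerivAt {a : ℂ → ℝ} {c : ℝ → ℂ} {t : ℝ} (h : GA a c t) :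
    HasDerivAt (fun s => (c s, deriv c s)) (vf a (c t, deriv c t)) t := by
  obtain ⟨h1, -, h3⟩ := h
  have d1 : HasDerivAt c (deriv c t) t := (h1.differentiableAt (by norm_num)).hasDerivAt
  have d2 : HasDerivAt (deriv c) (deriv (deriv c) t) t :=
    ((deriv_contDiffAt h1).differentiableAt (by norm_num)).hasDerivAt
  have d3 := d1.prodMk d2
  rw [h3] at d3
  exact d3

theorem ga_unique {a : ℂ → ℝ} (ha : ContDiffOn ℝ ∞ a (ball 0 3)) (hp : ∀ z ∈ ball (0 : ℂ) 3, 0 < a z)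
    {c₁ c₂ : ℝ → ℂ} {α β t₀ : ℝ} (ht : t₀ ∈ Ioo α β) (h1 : ∀ t ∈ Ioo α β, c₁ t ∈ ball (0 : ℂ) 3 ∧ GA a c₁ t)
    (h2 : ∀ t ∈ Ioo α β, c₂ t ∈ ball (0 : ℂ) 3 ∧ GA a c₂ t) (h3 : c₁ t₀ = c₂ t₀) (h4 : deriv c₁ t₀ = deriv c₂ t₀) :
    ∀ t ∈ Ioo α β, c₁ t = c₂ t := by
  have key : ∀ t ∈ Ioo α β, t ∈ {t | (c₁ t, deriv c₁ t) = (c₂ t, deriv c₂ t)} := by
    refine interval_aux ht (by simp only [mem_setOf_eq]; rw [h3, h4]) ?_ ?_
    · intro t htI hteq
      have hteq' : (c₁ t, deriv c₁ t) = (c₂ t, deriv c₂ t) := hteq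
      have hI : ∀ᶠ s in 𝓝 t, s ∈ Ioo α β := Ioo_mem_nhds htI.1 htI.2
      have hsm : ContDiffAt ℝ 1 (vf a) (c₁ t, deriv c₁ t) := vf_smooth ha hp (h1 t htI).1
      obtain ⟨K, U, hU, hLip⟩ := hsm.exists_lipschitzOnWith
      have k1 : ContinuousAt (fun s => (c₁ s, deriv c₁ s)) t := (ga_hasDerivAt (h1 t htI).2).continuousAt
      have k2 : ContinuousAt (fun s => (c₂ s, deriv c₂ s)) t := (ga_hasDerivAt (h2 t htI).2).continuousAt
      have := ODE_solution_unique_of_eventually (K := K) (v := fun _ => vf a) (s := fun _ => U) (t₀ := t)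
        (f := fun s => (c₁ s, deriv c₁ s)) (g := fun s => (c₂ s, deriv c₂ s))
        (Eventually.of_forall fun _ => hLip) ?_ ?_ hteq'
      · filter_upwards [this] with s hs
        exact hs
      · filter_upwards [hI, k1.eventually hU] with s hs hsU
        exact ⟨ga_hasDerivAt (h1 s hs).2, hsU⟩
      · rw [hteq'] at hU
        filter_upwards [hI, k2.eventually hU] with s hs hsU
        exact ⟨ga_hasDerivAt (h2 s hs).2, hsU⟩
    · intro t htI hcl
      have k1 : ContinuousAt (fun s => (c₁ s, deriv c₁ s)) t := (ga_hasDerivAt (h1 t htI).2).continuousAt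
      have k2 : ContinuousAt (fun s => (c₂ s, deriv c₂ s)) t := (ga_hasDerivAt (h2 t htI).2).continuousAt
      set R := Ioo α β ∩ {t | (c₁ t, deriv c₁ t) = (c₂ t, deriv c₂ t)} with hR
      have hne : (𝓝[R] t).NeBot := mem_closure_iff_nhdsWithin_neBot.1 hcl
      have t1 : Tendsto (fun s => (c₁ s, deriv c₁ s)) (𝓝[R] t) (𝓝 (c₁ t, deriv c₁ t)) :=
        k1.tendsto.mono_left nhdsWithin_le_nhds
      have t2 : Tendsto (fun s => (c₂ s, deriv c₂ s)) (𝓝[R] t) (𝓝 (c₂ t, deriv c₂ t)) :=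
        k2.tendsto.mono_left nhdsWithin_le_nhds
      have t3 : Tendsto (fun s => (c₁ s, deriv c₁ s)) (𝓝[R] t) (𝓝 (c₂ t, deriv c₂ t)) := by
        refine t2.congr' ?_
        filter_upwards [self_mem_nhdsWithin] with s hs
        exact hs.2.symm
      exact tendsto_nhds_unique t1 t3
  exact fun t ht' => congrArg Prod.fst (key t ht')

variable {S : Type*} [TopologicalSpace S] [MeasurableSpace S] [T2Space S]

theorem geoOn_unique (C : CSurf S) {w : S → ℝ} (hw : C.IsSmooth w) (hp : ∀ x, 0 < w x) {γ σ : ℝ → S} {α β s : ℝ}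
    (hs : s ∈ Ioo α β) (hγ : GeoOn C w γ α β) (hσ : GeoOn C w σ α β) (h0 : γ s = σ s) {i : Fin C.n}
    (hi : γ s ∈ (C.φ i).source) (h1 : deriv (C.φ i ∘ γ) s = deriv (C.φ i ∘ σ) s) : ∀ t ∈ Ioo α β, γ t = σ t := by
  have key : ∀ t ∈ Ioo α β, t ∈ {t | γ t = σ t ∧ ∀ j, γ t ∈ (C.φ j).source →
      deriv (C.φ j ∘ γ) t = deriv (C.φ j ∘ σ) t} := by
    refine interval_aux hs ?_ ?_ ?_
    · refine ⟨h0, fun j hj => ?_⟩
      have hi' : σ s ∈ (C.φ i).source := h0 ▸ hi
      have hj' : σ s ∈ (C.φ j).source := h0 ▸ hj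
      rw [vel_change C hi hj (hγ s hs).1 (((hγ s hs).2 i hi).1.differentiableAt (by norm_num)),
        vel_change C hi' hj' (hσ s hs).1 (((hσ s hs).2 i hi').1.differentiableAt (by norm_num)), h1, h0]
    · rintro t htI ⟨e1, e2⟩
      obtain ⟨j, hj, -⟩ := C.cover (γ t)
      have hj' : σ t ∈ (C.φ j).source := e1 ▸ hj
      have hI : ∀ᶠ r in 𝓝 t, r ∈ Ioo α β := Ioo_mem_nhds htI.1 htI.2
      have n1 : ∀ᶠ r in 𝓝 t, γ r ∈ (C.φ j).source :=
        (hγ t htI).1.eventually ((C.φ j).open_source.mem_nhds hj)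
      have n2 : ∀ᶠ r in 𝓝 t, σ r ∈ (C.φ j).source :=
        (hσ t htI).1.eventually ((C.φ j).open_source.mem_nhds hj')
      obtain ⟨ε, hε, hball⟩ := Metric.eventually_nhds_iff_ball.1 (hI.and (n1.and n2))
      rw [Real.ball_eq_Ioo] at hball
      have htt : t ∈ Ioo (t - ε) (t + ε) := ⟨by linarith, by linarith⟩
      have htg : (C.φ j).target = ball 0 3 := C.target j
      have hu := ga_unique (a_smooth C hw j) (fun z hz => a_pos C hp j hz) (c₁ := C.φ j ∘ γ) (c₂ := C.φ j ∘ σ) htt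
        (fun r hr => ⟨htg ▸ (C.φ j).map_source (hball r hr).2.1, (hγ r (hball r hr).1).2 j (hball r hr).2.1⟩)
        (fun r hr => ⟨htg ▸ (C.φ j).map_source (hball r hr).2.2, (hσ r (hball r hr).1).2 j (hball r hr).2.2⟩)
        (by simp only [Function.comp_apply]; rw [e1]) (e2 j hj)
      have heq : ∀ r ∈ Ioo (t - ε) (t + ε), γ r = σ r := fun r hr =>
        (C.φ j).injOn (hball r hr).2.1 (hball r hr).2.2 (hu r hr)
      filter_upwards [Ioo_mem_nhds htt.1 htt.2] with r hr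
      refine ⟨heq r hr, fun k _ => ?_⟩
      apply Filter.EventuallyEq.deriv_eq
      filter_upwards [Ioo_mem_nhds hr.1 hr.2] with r' hr'
      simp only [Function.comp_apply]
      rw [heq r' hr']
    · intro t htI hcl
      set R := Ioo α β ∩ {t | γ t = σ t ∧ ∀ j, γ t ∈ (C.φ j).source →
        deriv (C.φ j ∘ γ) t = deriv (C.φ j ∘ σ) t} with hR
      have hne : (𝓝[R] t).NeBot := mem_closure_iff_nhdsWithin_neBot.1 hcl
      have e1 : γ t = σ t := by
        have t1 : Tendsto γ (𝓝[R] t) (𝓝 (γ t)) := (hγ t htI).1.tendsto.mono_left nhdsWithin_le_nhds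
        have t2 : Tendsto σ (𝓝[R] t) (𝓝 (σ t)) := (hσ t htI).1.tendsto.mono_left nhdsWithin_le_nhds
        have t3 : Tendsto γ (𝓝[R] t) (𝓝 (σ t)) := by
          refine t2.congr' ?_
          filter_upwards [self_mem_nhdsWithin] with r hr
          exact hr.2.1.symm
        exact tendsto_nhds_unique t1 t3
      refine ⟨e1, fun j hj => ?_⟩
      have hj' : σ t ∈ (C.φ j).source := e1 ▸ hj
      have n1 : ∀ᶠ r in 𝓝 t, γ r ∈ (C.φ j).source :=
        (hγ t htI).1.eventually ((C.φ j).open_source.mem_nhds hj)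
      have t1 : Tendsto (deriv (C.φ j ∘ γ)) (𝓝[R] t) (𝓝 (deriv (C.φ j ∘ γ) t)) :=
        (deriv_contDiffAt ((hγ t htI).2 j hj).1).continuousAt.tendsto.mono_left nhdsWithin_le_nhds
      have t2 : Tendsto (deriv (C.φ j ∘ σ)) (𝓝[R] t) (𝓝 (deriv (C.φ j ∘ σ) t)) :=
        (deriv_contDiffAt ((hσ t htI).2 j hj').1).continuousAt.tendsto.mono_left nhdsWithin_le_nhds
      have t3 : Tendsto (deriv (C.φ j ∘ γ)) (𝓝[R] t) (𝓝 (deriv (C.φ j ∘ σ) t)) := by
        refine t2.congr' ?_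
        filter_upwards [self_mem_nhdsWithin, nhdsWithin_le_nhds n1] with r hr hr'
        exact (hr.2.2 j hr').symm
      exact tendsto_nhds_unique t1 t3
  exact fun t ht => (key t ht).1

omit [T2Space S] in
theorem geo_iff (C : CSurf S) {w : S → ℝ} {γ : ℝ → S} : C.IsGeo w γ ↔ ∀ α β, GeoOn C w γ α β := by
  constructor
  · rintro ⟨h1, h2⟩ α β t _
    exact ⟨h1.continuousAt, fun i hi => h2 i t hi⟩
  · intro h
    refine ⟨continuous_iff_continuousAt.2 fun t => (h (t - 1) (t + 1) t ⟨by linarith, by linarith⟩).1,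
      fun i t hi => ?_⟩
    exact (h (t - 1) (t + 1) t ⟨by linarith, by linarith⟩).2 i hi

private theorem ga_shift {a : ℂ → ℝ} {c : ℝ → ℂ} {s t : ℝ} (h : GA a c (s + t)) : GA a (fun r => c (s + r)) t := by
  obtain ⟨h1, h2, h3⟩ := h
  have hd : deriv (fun r => c (s + r)) = fun r => deriv c (s + r) := by
    funext r
    exact deriv_comp_const_add c s r
  refine ⟨?_, ?_, ?_⟩
  · have := h1.comp (x := t) (f := fun r : ℝ => s + r) ((contDiff_const.add contDiff_id).contDiffAt)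
    exact this
  · rw [hd]
    exact h2
  · rw [hd, deriv_comp_const_add (deriv c) s t]
    exact h3

private theorem ga_neg {a : ℂ → ℝ} {c : ℝ → ℂ} {t : ℝ} (h : GA a c (-t)) : GA a (fun r => c (-r)) t := by
  obtain ⟨h1, h2, h3⟩ := h
  have hd : deriv (fun r => c (-r)) = fun r => -deriv c (-r) := by
    funext r
    exact deriv_comp_neg c r
  refine ⟨?_, ?_, ?_⟩
  · have := h1.comp (x := t) (f := fun r : ℝ => -r) (contDiff_neg.contDiffAt)
    exact this
  · rw [hd]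
    simp only [norm_neg]
    exact h2
  · rw [hd]
    have e : deriv (fun r => -deriv c (-r)) t = deriv (deriv c) (-t) := by
      have h4 : deriv (fun r => -deriv c (-r)) t = -deriv (fun r => deriv c (-r)) t := deriv.fun_neg
      rw [h4, deriv_comp_neg (deriv c) t, neg_neg]
    rw [e, h3, neg_sq]

omit [T2Space S] in
theorem geo_shift (C : CSurf S) {w : S → ℝ} {γ : ℝ → S} (h : C.IsGeo w γ) (s : ℝ) :
    C.IsGeo w (fun t => γ (s + t)) := by
  refine ⟨h.1.comp (continuous_const.add continuous_id), fun i t hi => ?_⟩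
  exact ga_shift (c := C.φ i ∘ γ) (h.2 i (s + t) hi)

omit [T2Space S] in
theorem geo_neg (C : CSurf S) {w : S → ℝ} {γ : ℝ → S} (h : C.IsGeo w γ) : C.IsGeo w (fun t => γ (-t)) := by
  refine ⟨h.1.comp continuous_neg, fun i t hi => ?_⟩
  exact ga_neg (c := C.φ i ∘ γ) (h.2 i (-t) hi)

omit [T2Space S] in
theorem geoOn_shift (C : CSurf S) {w : S → ℝ} {γ : ℝ → S} {α β : ℝ} (h : GeoOn C w γ α β) (s : ℝ) :
    GeoOn C w (fun t => γ (s + t)) (α - s) (β - s) := by
  intro t ht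
  have ht' : s + t ∈ Ioo α β := ⟨by linarith [ht.1], by linarith [ht.2]⟩
  refine ⟨?_, fun i hi => ?_⟩
  · exact ContinuousAt.comp (x := t) (f := fun r : ℝ => s + r) (h (s + t) ht').1
      (continuous_const.add continuous_id).continuousAt
  · exact ga_shift (c := C.φ i ∘ γ) ((h (s + t) ht').2 i hi)

omit [T2Space S] in
theorem geoOn_neg (C : CSurf S) {w : S → ℝ} {γ : ℝ → S} {α β : ℝ} (h : GeoOn C w γ α β) :
    GeoOn C w (fun t => γ (-t)) (-β) (-α) := by
  intro t ht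
  have ht' : -t ∈ Ioo α β := ⟨by linarith [ht.2], by linarith [ht.1]⟩
  refine ⟨?_, fun i hi => ?_⟩
  · exact ContinuousAt.comp (x := t) (f := fun r : ℝ => -r) (h (-t) ht').1 continuous_neg.continuousAt
  · exact ga_neg (c := C.φ i ∘ γ) ((h (-t) ht').2 i hi)

theorem geo_unique (C : CSurf S) {w : S → ℝ} (hw : C.IsSmooth w) (hp : ∀ x, 0 < w x) {γ σ : ℝ → S}
    (hγ : C.IsGeo w γ) (hσ : C.IsGeo w σ) {s s' : ℝ} (h0 : γ s = σ s') {i : Fin C.n}
    (hi : γ s ∈ (C.φ i).source) (h1 : deriv (C.φ i ∘ γ) s = deriv (C.φ i ∘ σ) s') :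
    ∀ r, γ (s + r) = σ (s' + r) := by
  intro r
  have g1 := (geo_iff C).1 (geo_shift C hγ s) (-(|r| + 1)) (|r| + 1)
  have g2 := (geo_iff C).1 (geo_shift C hσ s') (-(|r| + 1)) (|r| + 1)
  have hr : r ∈ Ioo (-(|r| + 1)) (|r| + 1) := by
    have h1 := neg_abs_le r
    have h2 := le_abs_self r
    exact ⟨by linarith, by linarith⟩
  have h00 : (0 : ℝ) ∈ Ioo (-(|r| + 1)) (|r| + 1) := by
    have := abs_nonneg r
    exact ⟨by linarith, by linarith⟩
  refine geoOn_unique C hw hp h00 g1 g2 (by simpa using h0) (i := i) (by simpa using hi) ?_ r hr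
  have e1 : deriv (C.φ i ∘ fun t => γ (s + t)) 0 = deriv (C.φ i ∘ γ) s := by
    have := deriv_comp_const_add (C.φ i ∘ γ) s 0
    rw [add_zero] at this
    exact this
  have e2 : deriv (C.φ i ∘ fun t => σ (s' + t)) 0 = deriv (C.φ i ∘ σ) s' := by
    have := deriv_comp_const_add (C.φ i ∘ σ) s' 0
    rw [add_zero] at this
    exact this
  rw [e1, e2, h1]

end Pool.Agent.Helper53.CL.G
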