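import Pool.Agent.Helper53.CL.G.G02
import Pool.Agent.Helper53.CL.F.F03

/-!
# CL-G03: geodesics exist for all times (about 300 lines)

(0) `flow_ga`: for `‖q.2‖ = 1`, `q.1 ∈ ball 0 (3/2)`, `|s| < h` the curve `s ↦ (φ s q).1` of a `FlowD` satisfies `GA a` and
stays in `ball 0 2`, its velocity at `0` is `(√(a q.1))⁻¹ q.2`.  Proof: the base point stays in `ball 0 (13/8)` by `move`, the
direction has norm one, `X = gf a` there; with `z' = w = a^(-1/2) ζ`, `ζ' = i rot ζ`: `a |w|^2 = 1`, `w' = -(∂ log a) w^2`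
because `(a^(-1/2))' = -a^(-1/2) Re((∂ log a) w)` (`(log a(z))' = 2 Re((∂ log a) w)`) and `rot = -Im((∂ log a) w)`.
(1) uniform local existence: let `h` be the minimum over the finitely many charts of the times `h_i` of `exists_flow` for
`a = C.a w i`.  For every `x ∈ S`, chart `i` with `φ i x ∈ ball 0 1` and `v` with `a ‖v‖^2 = 1` there is `γ : ℝ → S` with
`GeoOn C w γ (-h) h`, `γ 0 = x`, `deriv (φ i ∘ γ) 0 = v`: `γ s = (φ i).symm (z s)`; `ga_change` for the other charts.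
(2) extension: if for all `x, i, v` as in (1) there is a geodesic on `(-T, T)`, then there is one on `(-T - h/2, T + h/2)`:
take a chart `j` about the point `γ (T - h/2)` with `φ j ∈ ball 0 1`, its velocity `v'` there, the arc `σ` of (1), the curve
`t ↦ σ (t - (T - h/2))` agrees with `γ` on the overlap by `geoOn_unique`, glue (`if t < T - h/2 then γ t else σ ..`), same on
the left.  So geodesics exist on `(-T_k, T_k)`, `T_k → ∞`, they agree by `geoOn_unique`; the union is a geodesic on the line.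
(3) an arbitrary chart `i` with `x ∈ (φ i).source`: pass to a chart `j` with `φ j x ∈ ball 0 1` by `vel_change` (the derivative
of the transition map is invertible and preserves the condition `a ‖v‖^2 = 1`).
-/

namespace Pool.Agent.Helper53.CL.G

open MeasureTheory Filter Topology Metric Set Pool.Agent.Helper53.CL.F
open scoped ContDiff Real ENNReal

theorem g03_sqrt {x : ℝ} (hx : 0 < x) : (√x)⁻¹ = Real.exp (-(Real.log x / 2)) := by
  rw [Real.exp_neg, Real.exp_half, Real.exp_log hx]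

/-- the derivative of a real function in terms of its Wirtinger derivative -/
theorem g03_dz {f : ℂ → ℝ} {z : ℂ} (hf : DifferentiableAt ℝ f z) (v : ℂ) :
    fderiv ℝ f z v = 2 * (dz (fun z => (f z : ℂ)) z * v).re := by
  have h1 : HasFDerivAt (fun z => (f z : ℂ)) (Complex.ofRealCLM.comp (fderiv ℝ f z)) z :=
    Complex.ofRealCLM.hasFDerivAt.comp z hf.hasFDerivAt
  have h2 : ∀ u, fderiv ℝ (fun z => (f z : ℂ)) z u = ((fderiv ℝ f z u : ℝ) : ℂ) := by
    intro u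
    rw [h1.fderiv]
    rfl
  have h3 : fderiv ℝ f z v = fderiv ℝ f z 1 * v.re + fderiv ℝ f z Complex.I * v.im := by
    have h4 : v = v.re • (1 : ℂ) + v.im • Complex.I := by
      apply Complex.ext <;> simp
    conv_lhs => rw [h4]
    rw [map_add, map_smul, map_smul, smul_eq_mul, smul_eq_mul]
    ring
  unfold dz dx dy
  rw [h2, h2, h3]
  simp only [Complex.mul_re, Complex.div_ofNat_re, Complex.div_ofNat_im, Complex.sub_re,
    Complex.sub_im, Complex.mul_im, Complex.ofReal_re, Complex.ofReal_im, Complex.I_re,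
    Complex.I_im]
  ring

theorem flow_ga {a : ℂ → ℝ} (ha : ContDiffOn ℝ ∞ a (ball 0 3)) (hp : ∀ z ∈ ball (0 : ℂ) 3, 0 < a z)
    {X : ℂ × ℂ → ℂ × ℂ} {φ : ℝ → ℂ × ℂ → ℂ × ℂ} {h ℓ : ℝ} (hF : FlowD a X φ h ℓ) {q : ℂ × ℂ}
    (hq : q.1 ∈ ball (0 : ℂ) (3 / 2)) (hq1 : ‖q.2‖ = 1) {s : ℝ} (hs : s ∈ Ioo (-h) h) :
    (φ s q).1 ∈ ball (0 : ℂ) 2 ∧ GA a (fun s => (φ s q).1) s ∧
      deriv (fun s => (φ s q).1) s = (((√(a (φ s q).1))⁻¹ : ℝ) : ℂ) * (φ s q).2 := by
  have hmem : ∀ r ∈ Ioo (-h) h, (φ r q).1 ∈ ball (0 : ℂ) (13 / 8) := by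
    intro r hr
    have h1 := hF.move q r hq1 (abs_le.2 ⟨hr.1.le, hr.2.le⟩)
    rw [mem_ball_zero_iff] at hq ⊢
    have h2 : ‖(φ r q).1‖ ≤ ‖(φ r q).1 - q.1‖ + ‖q.1‖ := by
      have := norm_add_le ((φ r q).1 - q.1) q.1
      simpa using this
    linarith
  have hmem2 : ∀ r ∈ Ioo (-h) h, (φ r q).1 ∈ ball (0 : ℂ) (15 / 8) := fun r hr =>
    ball_subset_ball (by norm_num) (hmem r hr)
  have hmem3 : ∀ r ∈ Ioo (-h) h, (φ r q).1 ∈ ball (0 : ℂ) 3 := fun r hr =>
    ball_subset_ball (by norm_num) (hmem r hr)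
  have hX : ∀ r ∈ Ioo (-h) h, X (φ r q) = gf a (φ r q) := fun r hr =>
    hF.X_eq _ (hmem2 r hr) (hF.norm r q hq1)
  have hFd : ∀ r, HasDerivAt (fun s => φ s q) (X (φ r q)) r := fun r => hF.deriv q r
  have hzd : ∀ r, HasDerivAt (fun s => (φ s q).1) (X (φ r q)).1 r := fun r => (hFd r).fst
  have hζd : ∀ r, HasDerivAt (fun s => (φ s q).2) (X (φ r q)).2 r := fun r => (hFd r).snd
  have hC : ∀ n : ℕ, ContDiff ℝ n (fun s => φ s q) := by
    intro n
    induction n with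
    | zero =>
      exact contDiff_zero.2 (continuous_iff_continuousAt.2 fun r => (hFd r).continuousAt)
    | succ n ih =>
      have h1 : ContDiff ℝ (n + 1) (fun s => φ s q) := by
        rw [contDiff_succ_iff_deriv]
        refine ⟨fun r => (hFd r).differentiableAt, fun hω => absurd hω (by simp), ?_⟩
        have h2 : deriv (fun s => φ s q) = fun s => X (φ s q) := funext fun r => (hFd r).deriv
        rw [h2]
        exact (hF.X_smooth.of_le (by exact_mod_cast le_top)).comp ih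
      exact_mod_cast h1
  have hz2 : ContDiffAt ℝ 2 (fun s => (φ s q).1) s := by
    have h1 : ContDiff ℝ 2 (fun s => φ s q) := by exact_mod_cast hC 2
    exact h1.fst.contDiffAt
  have hdz : ∀ r ∈ Ioo (-h) h, deriv (fun s => (φ s q).1) r =
      (((√(a (φ r q).1))⁻¹ : ℝ) : ℂ) * (φ r q).2 := by
    intro r hr
    rw [(hzd r).deriv, hX r hr]
    rfl
  have hapos : ∀ r ∈ Ioo (-h) h, 0 < a (φ r q).1 := fun r hr => hp _ (hmem3 r hr)
  refine ⟨ball_subset_ball (by norm_num) (hmem s hs), ⟨hz2, ?_, ?_⟩, hdz s hs⟩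
  · rw [hdz s hs, norm_mul, hF.norm s q hq1, mul_one, Complex.norm_real, Real.norm_eq_abs,
      abs_of_nonneg (by positivity), inv_pow, Real.sq_sqrt (hapos s hs).le]
    exact mul_inv_cancel₀ (hapos s hs).ne'
  · -- the second derivative
    set z : ℝ → ℂ := fun s => (φ s q).1 with hz
    set ζ : ℝ → ℂ := fun s => (φ s q).2 with hζ
    set L : ℂ := lgz a (z s) with hL
    set w : ℂ := deriv z s with hw
    have hnhds : Ioo (-h) h ∈ 𝓝 s := Ioo_mem_nhds hs.1 hs.2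
    -- `deriv z` near `s`
    have hev : deriv z =ᶠ[𝓝 s] fun r =>
        ((Real.exp (-(Real.log (a (z r)) / 2)) : ℝ) : ℂ) * ζ r := by
      filter_upwards [hnhds] with r hr
      rw [← g03_sqrt (hapos r hr)]
      exact hdz r hr
    have hwd : HasDerivAt z w s := by
      have h1 := hzd s
      rw [hw, h1.deriv]
      exact h1
    have hlog : DifferentiableAt ℝ (fun z => Real.log (a z)) (z s) := by
      have h1 : DifferentiableAt ℝ a (z s) :=
        (ha.contDiffAt (isOpen_ball.mem_nhds (hmem3 s hs))).differentiableAt (by simp)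
      exact h1.log (hapos s hs).ne'
    have h1 : HasDerivAt (fun r => Real.log (a (z r))) (2 * (L * w).re) s := by
      have h2 := HasFDerivAt.comp_hasDerivAt s hlog.hasFDerivAt hwd
      rw [g03_dz hlog] at h2
      exact h2
    have h3 : HasDerivAt (fun r => Real.exp (-(Real.log (a (z r)) / 2)))
        (Real.exp (-(Real.log (a (z s)) / 2)) * -(2 * (L * w).re / 2)) s :=
      ((h1.div_const 2).neg).exp
    have h4 : HasDerivAt ζ (Complex.I * ((rot a (φ s q) : ℝ) : ℂ) * ζ s) s := by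
      have h5 := hζd s
      rw [hX s hs] at h5
      exact h5
    have h6 : HasDerivAt (fun r => ((Real.exp (-(Real.log (a (z r)) / 2)) : ℝ) : ℂ) * ζ r)
        (((Real.exp (-(Real.log (a (z s)) / 2)) * -(2 * (L * w).re / 2) : ℝ) : ℂ) * ζ s +
          ((Real.exp (-(Real.log (a (z s)) / 2)) : ℝ) : ℂ) *
            (Complex.I * ((rot a (φ s q) : ℝ) : ℂ) * ζ s)) s :=
      h3.ofReal_comp.mul h4
    rw [hev.deriv_eq, h6.deriv]
    have hws : w = ((Real.exp (-(Real.log (a (z s)) / 2)) : ℝ) : ℂ) * ζ s := hev.eq_of_nhds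
    set ρ : ℝ := Real.exp (-(Real.log (a (z s)) / 2)) with hρ
    have hrot : rot a (φ s q) = -(L * w).im := by
      unfold rot
      have e1 : (√(a (φ s q).1))⁻¹ = ρ := g03_sqrt (hapos s hs)
      rw [e1, hws]
      have e2 : L * ((ρ : ℂ) * ζ s) = (ρ : ℂ) * (L * ζ s) := by ring
      rw [e2, Complex.im_ofReal_mul]
    rw [hrot]
    show _ = -L * w ^ 2
    have e3 : L * w = (((L * w).re : ℝ) : ℂ) + (((L * w).im : ℝ) : ℂ) * Complex.I :=
      (Complex.re_add_im (L * w)).symm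
    have e4 : -L * w ^ 2 = -(L * w) * w := by ring
    rw [e4]
    conv_rhs => rw [e3]
    set R : ℝ := (L * w).re
    set Q : ℝ := (L * w).im
    rw [hws]
    push_cast
    ring

theorem g03_ga_congr {a : ℂ → ℝ} {c c' : ℝ → ℂ} {t : ℝ} (h : c =ᶠ[𝓝 t] c') (hc : GA a c t) : GA a c' t := by
  obtain ⟨h1, h2, h3⟩ := hc
  have e1 : c t = c' t := h.eq_of_nhds
  have e2 : deriv c t = deriv c' t := h.deriv_eq
  have e3 : deriv (deriv c) t = deriv (deriv c') t := h.deriv.deriv_eq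
  refine ⟨h1.congr_of_eventuallyEq h.symm, ?_, ?_⟩
  · rw [← e1, ← e2]
    exact h2
  · rw [← e1, ← e2, ← e3]
    exact h3

section Aux

variable {S : Type*} [TopologicalSpace S] [MeasurableSpace S]

/-- A geodesic at the time `t`. -/
def G03AtT (C : CSurf S) (w : S → ℝ) (γ : ℝ → S) (t : ℝ) : Prop :=
  ContinuousAt γ t ∧ ∀ i, γ t ∈ (C.φ i).source → GA (C.a w i) (C.φ i ∘ γ) t

theorem g03_atT_congr (C : CSurf S) {w : S → ℝ} {γ γ' : ℝ → S} {t : ℝ} (h : γ =ᶠ[𝓝 t] γ') (ht : G03AtT C w γ t) :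
    G03AtT C w γ' t := by
  obtain ⟨h1, h2⟩ := ht
  refine ⟨h1.congr h, fun i hi => ?_⟩
  rw [← h.eq_of_nhds] at hi
  refine g03_ga_congr ?_ (h2 i hi)
  filter_upwards [h] with s hs
  simp only [Function.comp_apply, hs]

/-- Uniform local existence. -/
theorem g03_loc_exists (C : CSurf S) {w : S → ℝ} (hw : C.IsSmooth w) (hp : ∀ x, 0 < w x) :
    ∃ h : ℝ, 0 < h ∧ ∀ (x : S) (i : Fin C.n) (v : ℂ), x ∈ (C.φ i).source → C.φ i x ∈ ball (0 : ℂ) 1 →
      C.a w i (C.φ i x) * ‖v‖ ^ 2 = 1 →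
      ∃ γ : ℝ → S, GeoOn C w γ (-h) h ∧ γ 0 = x ∧ deriv (C.φ i ∘ γ) 0 = v := by
  choose X Φ H ℓ hF using fun i : Fin C.n => exists_flow (a_smooth C hw i) (fun z hz => a_pos C hp i hz)
  have h1 : ∀ᶠ h in 𝓝[>] (0 : ℝ), ∀ i, h < H i :=
    Filter.eventually_all.2 fun i => by
      filter_upwards [Ioo_mem_nhdsGT (hF i).h_pos] with h hh
      exact hh.2
  obtain ⟨h, hh, hpos⟩ := (h1.and self_mem_nhdsWithin).exists
  have hpos : 0 < h := hpos
  refine ⟨h, hpos, fun x i v hx hx1 hv => ?_⟩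
  have hx3 : C.φ i x ∈ ball (0 : ℂ) 3 := ball_subset_ball (by norm_num) hx1
  have hapos : 0 < C.a w i (C.φ i x) := a_pos C hp i hx3
  set q : ℂ × ℂ := (C.φ i x, ((√(C.a w i (C.φ i x)) : ℝ) : ℂ) * v) with hq
  have hq1 : ‖q.2‖ = 1 := by
    have e1 : ‖q.2‖ = √(C.a w i (C.φ i x)) * ‖v‖ := by
      rw [hq]
      simp only [norm_mul, Complex.norm_real, Real.norm_eq_abs, abs_of_nonneg (Real.sqrt_nonneg _)]
    have e2 : ‖q.2‖ ^ 2 = 1 := by
      rw [e1, mul_pow, Real.sq_sqrt hapos.le, hv]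
    have e3 : 0 ≤ ‖q.2‖ := norm_nonneg _
    nlinarith
  have hq0 : q.1 ∈ ball (0 : ℂ) (3 / 2) := ball_subset_ball (by norm_num) hx1
  have hfl : ∀ s ∈ Ioo (-h) h, (Φ i s q).1 ∈ ball (0 : ℂ) 2 ∧ GA (C.a w i) (fun s => (Φ i s q).1) s ∧
      deriv (fun s => (Φ i s q).1) s = (((√(C.a w i (Φ i s q).1))⁻¹ : ℝ) : ℂ) * (Φ i s q).2 := by
    intro s hs
    refine flow_ga (a_smooth C hw i) (fun z hz => a_pos C hp i hz) (hF i) hq0 hq1 ?_
    exact ⟨by linarith [hs.1, hh i], by linarith [hs.2, hh i]⟩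
  have htgt : ∀ s ∈ Ioo (-h) h, (Φ i s q).1 ∈ (C.φ i).target := by
    intro s hs
    rw [C.target i]
    exact ball_subset_ball (by norm_num) (hfl s hs).1
  set γ : ℝ → S := fun s => (C.φ i).symm (Φ i s q).1 with hγ
  have hev : ∀ t ∈ Ioo (-h) h, (fun s => (Φ i s q).1) =ᶠ[𝓝 t] (C.φ i ∘ γ) := by
    intro t ht
    filter_upwards [Ioo_mem_nhds ht.1 ht.2] with s hs
    simp only [Function.comp_apply, hγ]
    exact ((C.φ i).right_inv (htgt s hs)).symm
  have h00 : (0 : ℝ) ∈ Ioo (-h) h := ⟨by linarith, hpos⟩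
  refine ⟨γ, fun t ht => ?_, ?_, ?_⟩
  · have hGA := (hfl t ht).2.1
    have hcont : ContinuousAt γ t := by
      have h2 : ContinuousAt (fun s => (Φ i s q).1) t := hGA.1.continuousAt
      exact ContinuousAt.comp (f := fun s => (Φ i s q).1) (g := (C.φ i).symm)
        ((C.φ i).symm.continuousAt (by rw [OpenPartialHomeomorph.symm_source]; exact htgt t ht)) h2
    have hsrc : γ t ∈ (C.φ i).source := (C.φ i).map_target (htgt t ht)
    have hGA' : GA (C.a w i) (C.φ i ∘ γ) t := g03_ga_congr (hev t ht) hGA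
    exact ⟨hcont, fun j hj => ga_change C hw hp hsrc hj hcont hGA'⟩
  · show (C.φ i).symm (Φ i 0 q).1 = x
    rw [(hF i).zero q]
    exact (C.φ i).left_inv hx
  · rw [← (hev 0 h00).deriv_eq, (hfl 0 h00).2.2, (hF i).zero q]
    simp only [hq]
    rw [← mul_assoc, ← Complex.ofReal_mul, inv_mul_cancel₀ (Real.sqrt_pos.2 hapos).ne',
      Complex.ofReal_one, one_mul]

/-- The property of uniform local existence. -/
def G03LocEx (C : CSurf S) (w : S → ℝ) (h : ℝ) : Prop :=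
  ∀ (x : S) (i : Fin C.n) (v : ℂ), x ∈ (C.φ i).source → C.φ i x ∈ ball (0 : ℂ) 1 →
      C.a w i (C.φ i x) * ‖v‖ ^ 2 = 1 →
      ∃ γ : ℝ → S, GeoOn C w γ (-h) h ∧ γ 0 = x ∧ deriv (C.φ i ∘ γ) 0 = v

theorem g03_ext_right [T2Space S] (C : CSurf S) {w : S → ℝ} (hw : C.IsSmooth w) (hp : ∀ x, 0 < w x) {h : ℝ} (hh : 0 < h)
    (hL : G03LocEx C w h) {γ : ℝ → S} {α β : ℝ} (hγ : GeoOn C w γ α β) (hαβ : α + h / 2 < β) :
    ∃ γ' : ℝ → S, GeoOn C w γ' α (β + h / 2) ∧ ∀ t ∈ Ioo α β, γ' t = γ t := by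
  set s₀ : ℝ := β - h / 2 with hs₀
  have hmem : s₀ ∈ Ioo α β := ⟨by linarith, by linarith⟩
  obtain ⟨j, hj, hj1⟩ := C.cover (γ s₀)
  have hA := hγ s₀ hmem
  obtain ⟨σ, hσ, hσ0, hσ1⟩ := hL (γ s₀) j (deriv (C.φ j ∘ γ) s₀) hj hj1 (hA.2 j hj).2.1
  have hσ' := geoOn_shift C hσ (-s₀)
  set σ' : ℝ → S := fun t => σ (-s₀ + t) with hσ'd
  have hI : Ioo (-h - -s₀) (h - -s₀) = Ioo (s₀ - h) (s₀ + h) := by congr 1 <;> ring
  have hover : ∀ t ∈ Ioo (max α (s₀ - h)) β, γ t = σ' t := by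
    have hs : s₀ ∈ Ioo (max α (s₀ - h)) β := ⟨max_lt hmem.1 (by linarith), hmem.2⟩
    refine geoOn_unique C hw hp hs (fun t ht => ?_) (fun t ht => ?_) ?_ hj ?_
    · exact hγ t ⟨(le_max_left _ _).trans_lt ht.1, ht.2⟩
    · refine hσ' t ?_
      rw [hI]
      exact ⟨(le_max_right _ _).trans_lt ht.1, by linarith [ht.2]⟩
    · simp only [hσ'd, neg_add_cancel, hσ0]
    · have e1 : C.φ j ∘ σ' = fun t => (C.φ j ∘ σ) (-s₀ + t) := rfl
      rw [e1, deriv_comp_const_add, neg_add_cancel, hσ1]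
  refine ⟨fun t => if t < s₀ then γ t else σ' t, ?_, ?_⟩
  · intro t ht
    change G03AtT C w (fun t => if t < s₀ then γ t else σ' t) t
    rcases lt_or_ge t β with htβ | htβ
    · refine g03_atT_congr C (γ := γ) ?_ (hγ t ⟨ht.1, htβ⟩)
      filter_upwards [Ioo_mem_nhds ht.1 htβ] with r hr
      by_cases h1 : r < s₀
      · rw [if_pos h1]
      · rw [if_neg h1]
        exact hover r ⟨max_lt hr.1 (by linarith [not_lt.1 h1]), hr.2⟩
    · refine g03_atT_congr C (γ := σ') ?_ (hσ' t ?_)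
      · filter_upwards [Ioi_mem_nhds (show s₀ < t by linarith)] with r hr
        rw [if_neg (not_lt.2 (le_of_lt hr))]
      · rw [hI]
        exact ⟨by linarith, by linarith [ht.2]⟩
  · intro t ht
    by_cases h1 : t < s₀
    · simp only [if_pos h1]
    · simp only [if_neg h1]
      exact (hover t ⟨max_lt ht.1 (by linarith [not_lt.1 h1]), ht.2⟩).symm

theorem g03_ext_both [T2Space S] (C : CSurf S) {w : S → ℝ} (hw : C.IsSmooth w) (hp : ∀ x, 0 < w x) {h : ℝ} (hh : 0 < h)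
    (hL : G03LocEx C w h) {γ : ℝ → S} {T : ℝ} (hγ : GeoOn C w γ (-T) T) (hT : h ≤ T) :
    ∃ γ' : ℝ → S, GeoOn C w γ' (-(T + h / 2)) (T + h / 2) ∧ ∀ t ∈ Ioo (-T) T, γ' t = γ t := by
  obtain ⟨γ₁, h1, h1'⟩ := g03_ext_right C hw hp hh hL hγ (by linarith)
  have h2 := geoOn_neg C h1
  rw [neg_neg] at h2
  obtain ⟨γ₃, h3, h3'⟩ := g03_ext_right C hw hp hh hL h2 (by linarith)
  have h4 := geoOn_neg C h3
  rw [neg_neg] at h4
  refine ⟨fun t => γ₃ (-t), h4, fun t ht => ?_⟩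
  show γ₃ (-t) = γ t
  rw [h3' (-t) ⟨by linarith [ht.2], by linarith [ht.1]⟩]
  simp only [neg_neg]
  exact h1' t ht

theorem g03_geo_ext [T2Space S] (C : CSurf S) {w : S → ℝ} (hw : C.IsSmooth w) (hp : ∀ x, 0 < w x) {h : ℝ} (hh : 0 < h)
    (hL : G03LocEx C w h) {γ : ℝ → S} (hγ : GeoOn C w γ (-h) h) :
    ∃ Γ : ℝ → S, C.IsGeo w Γ ∧ ∀ t ∈ Ioo (-h) h, Γ t = γ t := by
  set T : ℕ → ℝ := fun n => h + n * (h / 2) with hT
  have hTh : ∀ n, h ≤ T n := fun n => by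
    simp only [hT]
    nlinarith [Nat.cast_nonneg (α := ℝ) n]
  have hT1 : ∀ n, T (n + 1) = T n + h / 2 := fun n => by
    simp only [hT]
    push_cast
    ring
  have hT0 : T 0 = h := by simp [hT]
  have step : ∀ n (g : {g : ℝ → S // GeoOn C w g (-(T n)) (T n)}),
      ∃ g' : {g : ℝ → S // GeoOn C w g (-(T (n + 1))) (T (n + 1))}, ∀ t ∈ Ioo (-(T n)) (T n), g'.1 t = g.1 t := by
    intro n g
    obtain ⟨g', h1, h2⟩ := g03_ext_both C hw hp hh hL g.2 (hTh n)
    rw [← hT1] at h1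
    exact ⟨⟨g', h1⟩, h2⟩
  choose F hF using step
  let G : ∀ n, {g : ℝ → S // GeoOn C w g (-(T n)) (T n)} := fun n =>
    Nat.rec (motive := fun n => {g : ℝ → S // GeoOn C w g (-(T n)) (T n)}) ⟨γ, by rw [hT0]; exact hγ⟩ (fun n g => F n g) n
  have hG0 : (G 0).1 = γ := rfl
  have hGs : ∀ n, G (n + 1) = F n (G n) := fun n => rfl
  have hG1 : ∀ n, ∀ t ∈ Ioo (-(T n)) (T n), (G (n + 1)).1 t = (G n).1 t := fun n t ht => by
    rw [hGs]
    exact hF n (G n) t ht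
  have hTm : Monotone T := monotone_nat_of_le_succ fun n => by
    rw [hT1]
    linarith
  have hGm : ∀ n m, n ≤ m → ∀ t ∈ Ioo (-(T n)) (T n), (G m).1 t = (G n).1 t := by
    intro n m hnm
    induction m, hnm using Nat.le_induction with
    | base => exact fun t _ => rfl
    | succ m hm ih =>
      intro t ht
      rw [hG1 m t ⟨by linarith [ht.1, hTm hm], by linarith [ht.2, hTm hm]⟩]
      exact ih t ht
  let N : ℝ → ℕ := fun t => ⌈|t| / (h / 2)⌉₊
  have hN : ∀ t, t ∈ Ioo (-(T (N t))) (T (N t)) := by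
    intro t
    have h1 : |t| / (h / 2) ≤ (N t : ℝ) := Nat.le_ceil _
    rw [div_le_iff₀ (by linarith)] at h1
    have h2 : |t| < T (N t) := by
      simp only [hT]
      linarith
    exact abs_lt.1 h2
  let Γ : ℝ → S := fun t => (G (N t)).1 t
  have hΓ : ∀ n, ∀ t ∈ Ioo (-(T n)) (T n), Γ t = (G n).1 t := by
    intro n t ht
    have h1 := hGm (N t) (max (N t) n) (le_max_left _ _) t (hN t)
    have h2 := hGm n (max (N t) n) (le_max_right _ _) t ht
    show (G (N t)).1 t = (G n).1 t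
    rw [← h1, ← h2]
  refine ⟨Γ, (geo_iff C).2 fun α β t _ => ?_, fun t ht => ?_⟩
  · change G03AtT C w Γ t
    refine g03_atT_congr C (γ := (G (N t)).1) ?_ ((G (N t)).2 t (hN t))
    filter_upwards [Ioo_mem_nhds (hN t).1 (hN t).2] with r hr
    exact (hΓ (N t) r hr).symm
  · rw [hΓ 0 t (by rw [hT0]; exact ht), hG0]

end Aux

variable {S : Type*} [TopologicalSpace S] [MeasurableSpace S] [T2Space S] [CompactSpace S]

theorem geo_exists (C : CSurf S) {w : S → ℝ} (hw : C.IsSmooth w) (hp : ∀ x, 0 < w x) {x : S} {i : Fin C.n}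
    (hx : x ∈ (C.φ i).source) {v : ℂ} (hv : C.a w i (C.φ i x) * ‖v‖ ^ 2 = 1) :
    ∃ γ : ℝ → S, C.IsGeo w γ ∧ γ 0 = x ∧ deriv (C.φ i ∘ γ) 0 = v := by
  obtain ⟨h, hh, hL⟩ := g03_loc_exists C hw hp
  obtain ⟨j, hj, hj1⟩ := C.cover x
  set u : ℂ := fderiv ℝ (C.φ j ∘ (C.φ i).symm) (C.φ i x) v with hu
  have hau : C.a w j (C.φ j x) * ‖u‖ ^ 2 = 1 := by
    have e1 := C.trans_conf i j x hx hj v
    rw [← hu] at e1
    rw [← hv]
    unfold CSurf.a
    rw [(C.φ j).left_inv hj, (C.φ i).left_inv hx]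
    linear_combination w x * e1
  obtain ⟨γ₀, hγ₀, h0, h1⟩ := hL x j u hj hj1 hau
  obtain ⟨γ, hγ, hγe⟩ := g03_geo_ext C hw hp hh hL hγ₀
  have h00 : (0 : ℝ) ∈ Ioo (-h) h := ⟨by linarith, hh⟩
  have hγ0 : γ 0 = x := by rw [hγe 0 h00, h0]
  refine ⟨γ, hγ, hγ0, ?_⟩
  have hev : (C.φ j ∘ γ) =ᶠ[𝓝 0] (C.φ j ∘ γ₀) := by
    filter_upwards [Ioo_mem_nhds h00.1 h00.2] with r hr
    simp only [Function.comp_apply, hγe r hr]
  have hd : deriv (C.φ j ∘ γ) 0 = u := by rw [hev.deriv_eq, h1]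
  have hjs : γ 0 ∈ (C.φ j).source := by rw [hγ0]; exact hj
  have his : γ 0 ∈ (C.φ i).source := by rw [hγ0]; exact hx
  rw [vel_change C hjs his hγ.1.continuousAt ((hγ.2 j 0 hjs).1.differentiableAt (by norm_num)), hd, hγ0, hu]
  -- the chain rule
  have hm1 : C.φ i x ∈ ((C.φ i).symm.trans (C.φ j)).source := by
    rw [OpenPartialHomeomorph.trans_source, OpenPartialHomeomorph.symm_source]
    refine ⟨(C.φ i).map_source hx, ?_⟩
    rw [mem_preimage, (C.φ i).left_inv hx]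
    exact hj
  have hm2 : C.φ j x ∈ ((C.φ j).symm.trans (C.φ i)).source := by
    rw [OpenPartialHomeomorph.trans_source, OpenPartialHomeomorph.symm_source]
    refine ⟨(C.φ j).map_source hj, ?_⟩
    rw [mem_preimage, (C.φ j).left_inv hj]
    exact hx
  have hd1 : DifferentiableAt ℝ (C.φ j ∘ (C.φ i).symm) (C.φ i x) :=
    ((C.trans_smooth i j).contDiffAt (((C.φ i).symm.trans (C.φ j)).open_source.mem_nhds hm1)).differentiableAt
      (by simp)
  have hd2 : DifferentiableAt ℝ (C.φ i ∘ (C.φ j).symm) (C.φ j x) :=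
    ((C.trans_smooth j i).contDiffAt (((C.φ j).symm.trans (C.φ i)).open_source.mem_nhds hm2)).differentiableAt
      (by simp)
  have hτ : (C.φ j ∘ (C.φ i).symm) (C.φ i x) = C.φ j x := by
    simp only [Function.comp_apply, (C.φ i).left_inv hx]
  have hcomp : fderiv ℝ ((C.φ i ∘ (C.φ j).symm) ∘ (C.φ j ∘ (C.φ i).symm)) (C.φ i x) =
      (fderiv ℝ (C.φ i ∘ (C.φ j).symm) (C.φ j x)).comp (fderiv ℝ (C.φ j ∘ (C.φ i).symm) (C.φ i x)) := by
    have h5 := fderiv_comp (x := C.φ i x) (g := C.φ i ∘ (C.φ j).symm) (f := C.φ j ∘ (C.φ i).symm)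
      (by rw [hτ]; exact hd2) hd1
    rw [hτ] at h5
    exact h5
  have hid : ((C.φ i ∘ (C.φ j).symm) ∘ (C.φ j ∘ (C.φ i).symm)) =ᶠ[𝓝 (C.φ i x)] id := by
    filter_upwards [((C.φ i).symm.trans (C.φ j)).open_source.mem_nhds hm1] with y hy
    rw [OpenPartialHomeomorph.trans_source, OpenPartialHomeomorph.symm_source] at hy
    simp only [Function.comp_apply, id]
    rw [(C.φ j).left_inv hy.2, (C.φ i).right_inv hy.1]
  have h6 := hid.fderiv_eq (𝕜 := ℝ)
  rw [hcomp, fderiv_id] at h6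
  have h7 := congrArg (fun L : ℂ →L[ℝ] ℂ => L v) h6
  simpa using h7

end Pool.Agent.Helper53.CL.G
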