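import Pool.Agent.Helper53.CL.G.G02

/-!
# CL-G04: two geodesics cross transversally in a countable set (about 150 lines)

`cross_countable`: let `Z = {(s, s') | γ s = σ s', not tangent}`.  Every point of `Z` is isolated in `Z`: let
`(s₀, s₀') ∈ Z`, `i` a chart about `γ s₀ = σ s₀'`; `F(s, s') = φ i (γ s) - φ i (σ s')` is `C^1` near `(s₀, s₀')` with
derivative `(x, y) ↦ x v - y v'`, where `v, v'` are not real multiples of each other: both have the same norm
(`a ‖v‖^2 = 1 = a ‖v'‖^2`), so dependence would mean `v = ±v'`, i.e. `Tang`.  The derivative is injective, so `F` is injective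
near the point (`HasStrictFDerivAt` and the inverse function theorem, or directly `‖F(p) - F(q) - L(p - q)‖ ≤ c ‖p - q‖`), and
`F = 0` on `Z` near the point (`γ`, `σ` are continuous).  A subset of the plane all of whose points are isolated is countable
(`DiscreteTopology` on the subtype, second countable).
`tang_symm`, `tang_eq`: `geo_unique` for `σ` or for `t ↦ σ (-t)` (`geo_neg`; the velocity of the reversed curve at `-s'` is
minus the velocity of `σ` at `s'`).
`not_reverse`: if `γ (s + r) = γ (s' - r)` for all `r`, then with `m = (s + s') / 2`: `γ (m + r) = γ (m - r)`, the curve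
`c = φ i ∘ γ` in a chart about `γ m` is even about `m`, so `c' (m) = 0`, contradicting `a ‖c'‖^2 = 1`.
`geo_inj`: `γ` is injective near every time (`c' ≠ 0`, `C^1`).
-/

namespace Pool.Agent.Helper53.CL.G

open MeasureTheory Filter Topology Metric Set Pool.Agent.Helper53.CL.F
open scoped ContDiff Real ENNReal

private theorem lin_bound {v v' : ℂ} (hv : v ≠ 0) (hn : ‖v‖ = ‖v'‖) (h1 : v ≠ v') (h2 : v ≠ -v') :
    ∃ K, AntilipschitzWith K ((ContinuousLinearMap.fst ℝ ℝ ℝ).smulRight v -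
      (ContinuousLinearMap.snd ℝ ℝ ℝ).smulRight v') := by
  set L : ℝ × ℝ →L[ℝ] ℂ := (ContinuousLinearMap.fst ℝ ℝ ℝ).smulRight v -
      (ContinuousLinearMap.snd ℝ ℝ ℝ).smulRight v' with hL
  have hLz : ∀ z : ℝ × ℝ, L z = z.1 • v - z.2 • v' := fun z => rfl
  have hv0 : 0 < ‖v‖ := norm_pos_iff.2 hv
  have hinj : Function.Injective (L : ℝ × ℝ →ₗ[ℝ] ℂ) := by
    rw [← LinearMap.ker_eq_bot, LinearMap.ker_eq_bot']
    intro z hz
    have hz' : z.1 • v = z.2 • v' := by
      have h := hLz z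
      have h0 : L z = 0 := hz
      rw [h0] at h
      exact (sub_eq_zero.1 h.symm)
    have habs : |z.1| = |z.2| := by
      have h := congrArg norm hz'
      rw [norm_smul, norm_smul, ← hn, Real.norm_eq_abs, Real.norm_eq_abs] at h
      exact mul_right_cancel₀ hv0.ne' h
    rcases abs_eq_abs.1 habs with h | h
    · by_cases hz0 : z.1 = 0
      · exact Prod.ext hz0 (by rw [← h]; exact hz0)
      · rw [← h] at hz'
        exact absurd (smul_right_injective ℂ hz0 hz') h1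
    · by_cases hz0 : z.1 = 0
      · refine Prod.ext hz0 ?_
        have : z.2 = -z.1 := by rw [h]; ring
        rw [this, hz0]
        simp
      · have h3 : z.2 = -z.1 := by rw [h]; ring
        rw [h3, neg_smul, ← smul_neg] at hz'
        exact absurd (smul_right_injective ℂ hz0 hz') h2
  obtain ⟨K, -, hK⟩ := (LinearMap.injective_iff_antilipschitz _).1 hinj
  exact ⟨K, hK⟩

variable {S : Type*} [TopologicalSpace S] [MeasurableSpace S] [T2Space S]

omit [T2Space S] in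
theorem cross_countable (C : CSurf S) {w : S → ℝ} (hw : C.IsSmooth w) (hp : ∀ x, 0 < w x) {γ σ : ℝ → S}
    (hγ : C.IsGeo w γ) (hσ : C.IsGeo w σ) :
    {p : ℝ × ℝ | γ p.1 = σ p.2 ∧ ¬ Tang C γ σ p.1 p.2}.Countable := by
  set Z : Set (ℝ × ℝ) := {p : ℝ × ℝ | γ p.1 = σ p.2 ∧ ¬ Tang C γ σ p.1 p.2} with hZ
  have hiso : ∀ p ∈ Z, ({p} : Set (ℝ × ℝ)) ∈ 𝓝[Z] p := by
    rintro p ⟨h1, h2⟩
    obtain ⟨i, hi, -⟩ := C.cover (γ p.1)
    have hi' : σ p.2 ∈ (C.φ i).source := h1 ▸ hi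
    obtain ⟨c1, c2, -⟩ := hγ.2 i p.1 hi
    obtain ⟨d1, d2, -⟩ := hσ.2 i p.2 hi'
    set v := deriv (C.φ i ∘ γ) p.1 with hv
    set v' := deriv (C.φ i ∘ σ) p.2 with hv'
    have hne : ¬ (v = v' ∨ v = -v') := fun h => h2 ⟨h1, i, hi, h⟩
    push Not at hne
    have hv0 : v ≠ 0 := by
      intro h
      rw [h] at c2
      simp at c2
    have hn : ‖v‖ = ‖v'‖ := by
      rw [← h1] at d2
      have ha : C.a w i (C.φ i (γ p.1)) ≠ 0 := by
        intro h
        rw [h, zero_mul] at c2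
        exact zero_ne_one c2
      have h3 : ‖v‖ ^ 2 = ‖v'‖ ^ 2 := mul_left_cancel₀ ha (c2.trans d2.symm)
      exact (pow_left_inj₀ (norm_nonneg _) (norm_nonneg _) two_ne_zero).1 h3
    obtain ⟨K, hK⟩ := lin_bound hv0 hn hne.1 hne.2
    have e1 : HasDerivAt (C.φ i ∘ γ) v p.1 := (c1.differentiableAt (by norm_num)).hasDerivAt
    have e2 : HasDerivAt (C.φ i ∘ σ) v' p.2 := (d1.differentiableAt (by norm_num)).hasDerivAt
    have f1 : HasFDerivAt (fun q : ℝ × ℝ => (C.φ i ∘ γ) q.1)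
        ((ContinuousLinearMap.fst ℝ ℝ ℝ).smulRight v) p := by
      have := e1.hasFDerivAt.comp p (hasFDerivAt_fst (𝕜 := ℝ) (E := ℝ) (F := ℝ))
      refine this.congr_fderiv ?_
      apply ContinuousLinearMap.ext
      intro z
      rfl
    have f2 : HasFDerivAt (fun q : ℝ × ℝ => (C.φ i ∘ σ) q.2)
        ((ContinuousLinearMap.snd ℝ ℝ ℝ).smulRight v') p := by
      have := e2.hasFDerivAt.comp p (hasFDerivAt_snd (𝕜 := ℝ) (E := ℝ) (F := ℝ))
      refine this.congr_fderiv ?_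
      apply ContinuousLinearMap.ext
      intro z
      rfl
    have hF := (f1.sub f2).eventually_ne (c := 0) ⟨K, hK⟩
    have hF' : ∀ᶠ z in 𝓝 p, z ≠ p → (C.φ i ∘ γ) z.1 - (C.φ i ∘ σ) z.2 ≠ 0 :=
      eventually_nhdsWithin_iff.1 hF
    filter_upwards [nhdsWithin_le_nhds hF', self_mem_nhdsWithin] with q hq hqZ
    by_contra hqp
    refine hq hqp ?_
    simp only [Function.comp_apply]
    rw [hqZ.1, sub_self]
  obtain ⟨t, ht, htc, hcov⟩ := TopologicalSpace.countable_cover_nhdsWithin (f := fun p => {p}) hiso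
  refine htc.mono ?_
  intro q hq
  have := hcov hq
  simp only [mem_iUnion, mem_singleton_iff, exists_prop, exists_eq_right'] at this
  exact this

omit [T2Space S] in
theorem tang_symm (C : CSurf S) {γ σ : ℝ → S} {s s' : ℝ} (h : Tang C γ σ s s') : Tang C σ γ s' s := by
  obtain ⟨h1, i, hi, h2⟩ := h
  refine ⟨h1.symm, i, h1 ▸ hi, ?_⟩
  rcases h2 with h2 | h2
  · exact Or.inl h2.symm
  · right
    rw [h2, neg_neg]

theorem tang_eq (C : CSurf S) {w : S → ℝ} (hw : C.IsSmooth w) (hp : ∀ x, 0 < w x) {γ σ : ℝ → S}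
    (hγ : C.IsGeo w γ) (hσ : C.IsGeo w σ) {s s' : ℝ} (h : Tang C γ σ s s') :
    (∀ r, γ (s + r) = σ (s' + r)) ∨ ∀ r, γ (s + r) = σ (s' - r) := by
  obtain ⟨h1, i, hi, h2⟩ := h
  rcases h2 with h2 | h2
  · exact Or.inl (geo_unique C hw hp hγ hσ h1 hi h2)
  · right
    have hσ' := geo_neg C hσ
    have e0 : γ s = (fun t => σ (-t)) (-s') := by
      show γ s = σ (- -s')
      rw [neg_neg]
      exact h1
    have e1 : deriv (C.φ i ∘ γ) s = deriv (C.φ i ∘ fun t => σ (-t)) (-s') := by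
      have h3 : deriv (C.φ i ∘ fun t => σ (-t)) (-s') = -deriv (C.φ i ∘ σ) (- -s') :=
        deriv_comp_neg (C.φ i ∘ σ) (-s')
      rw [h3, neg_neg, h2]
    intro r
    have h4 := geo_unique C hw hp hγ hσ' e0 hi e1 r
    have h5 : γ (s + r) = σ (-(-s' + r)) := h4
    rw [h5]
    congr 1
    ring

omit [T2Space S] in
theorem not_reverse (C : CSurf S) {w : S → ℝ} {γ : ℝ → S} (hγ : C.IsGeo w γ) (s s' : ℝ) :
    ¬ ∀ r, γ (s + r) = γ (s' - r) := by
  intro h
  set m := (s + s') / 2 with hm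
  have hmr : ∀ r, γ (m + r) = γ (m - r) := by
    intro r
    have h1 := h (m - s + r)
    have e1 : s + (m - s + r) = m + r := by ring
    have e2 : s' - (m - s + r) = m - r := by rw [hm]; ring
    rw [e1, e2] at h1
    exact h1
  obtain ⟨i, hi, -⟩ := C.cover (γ m)
  obtain ⟨c1, c2, -⟩ := hγ.2 i m hi
  have hfun : (fun r => (C.φ i ∘ γ) (m + r)) = fun r => (C.φ i ∘ γ) (m - r) := by
    funext r
    simp only [Function.comp_apply]
    rw [hmr r]
  have d1 : deriv (fun r => (C.φ i ∘ γ) (m + r)) 0 = deriv (C.φ i ∘ γ) (m + 0) :=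
    deriv_comp_const_add (C.φ i ∘ γ) m 0
  have d2 : deriv (fun r => (C.φ i ∘ γ) (m - r)) 0 = -deriv (C.φ i ∘ γ) (m - 0) :=
    deriv_comp_const_sub (C.φ i ∘ γ) m 0
  rw [hfun, d2, add_zero, sub_zero] at d1
  have h0 : deriv (C.φ i ∘ γ) m = 0 := by
    have h5 : -deriv (C.φ i ∘ γ) m = deriv (C.φ i ∘ γ) m := d1
    exact self_eq_neg.1 h5.symm
  rw [h0] at c2
  simp at c2

omit [T2Space S] in
theorem geo_inj (C : CSurf S) {w : S → ℝ} {γ : ℝ → S} (hγ : C.IsGeo w γ) (t : ℝ) :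
    ∃ δ > 0, InjOn γ (Ioo (t - δ) (t + δ)) := by
  obtain ⟨i, hi, -⟩ := C.cover (γ t)
  obtain ⟨c1, c2, -⟩ := hγ.2 i t hi
  set v := deriv (C.φ i ∘ γ) t with hv
  have hv0 : 0 < ‖v‖ := by
    rw [norm_pos_iff]
    intro h
    rw [h] at c2
    simp at c2
  have hst : HasStrictDerivAt (C.φ i ∘ γ) v t := c1.hasStrictDerivAt (by norm_num)
  have hc : (0 : NNReal) < ‖v‖₊ / 2 := by
    have : 0 < ‖v‖₊ := hv0
    positivity
  obtain ⟨U, hU, hap⟩ := hst.hasStrictFDerivAt.approximates_deriv_on_nhds (c := ‖v‖₊ / 2) (Or.inr hc)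
  obtain ⟨δ, hδ, hball⟩ := Metric.mem_nhds_iff.1 hU
  rw [Real.ball_eq_Ioo] at hball
  refine ⟨δ, hδ, ?_⟩
  intro x hx y hy hxy
  have h1 := hap x (hball hx) y (hball hy)
  have h2 : (C.φ i ∘ γ) x = (C.φ i ∘ γ) y := by
    simp only [Function.comp_apply]
    rw [hxy]
  rw [h2, sub_self, zero_sub, norm_neg] at h1
  have h3 : ‖(ContinuousLinearMap.toSpanSingleton ℝ v) (x - y)‖ = ‖x - y‖ * ‖v‖ := by
    rw [ContinuousLinearMap.toSpanSingleton_apply, norm_smul]
  rw [h3] at h1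
  have h4 : ((‖v‖₊ / 2 : NNReal) : ℝ) = ‖v‖ / 2 := by simp
  rw [h4] at h1
  by_contra hne
  have h5 : 0 < ‖x - y‖ := norm_pos_iff.2 (sub_ne_zero.2 hne)
  nlinarith

end Pool.Agent.Helper53.CL.G
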