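import Pool.Agent.Helper53.CL.G.G04

/-!
# CL-G06: finitely many classes of massive geodesics (about 200 lines)

Call `γ, σ ∈ Fam` independent if `¬ Tang C γ σ s s'` for all `s, s'`.  Then `{(s, s') | γ s = σ s'}` is countable
(`cross_countable`), so `γ '' ℝ ∩ σ '' ℝ` is countable and `μ` null (`hμ`).  The arcs `γ '' Ioo (-h) h` have mass
`κ 2h ≥ 2 h κ₀` (`MassAt` with `s = 0`), so `N` pairwise independent members of `Fam` have `N 2 h κ₀ ≤ μ univ` (the measure of a
finite union of sets, measurable as images of Borel sets (`σ`-compact sets), with null pairwise intersections is the sum: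
`measure_iUnion₀`, `AEDisjoint`).  Take a family with the maximal number `n` of pairwise independent members
(`Nat.find` / `Nat.findGreatest`, `n ≤ μ univ / (2 h κ₀)`).  If `γ ∈ Fam` then by maximality (adding `γ` to the family) there
are `k, s, s'` with `Tang C γ (Γ k) s s'`, and `tang_eq` gives `γ (s + r) = Γ k (s' ± r)` for all `r`; substitute `r - s`.
-/

namespace Pool.Agent.Helper53.CL.G

open MeasureTheory Filter Topology Metric Set Pool.Agent.Helper53.CL.F
open scoped ContDiff Real ENNReal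

variable {S : Type*} [TopologicalSpace S] [MeasurableSpace S] [T2Space S] [CompactSpace S] [BorelSpace S]

omit [CompactSpace S] in
private theorem g06_bound (C : CSurf S) {w : S → ℝ} (hw : C.IsSmooth w) (hp : ∀ x, 0 < w x) {μ : Measure S}
    [IsFiniteMeasure μ] (hμ : ∀ x, μ {x} = 0) {h κ₀ : ℝ} (hh : 0 < h) (hκ : 0 < κ₀) {n : ℕ}
    {Γ : Fin n → ℝ → S} (hΓ : ∀ k, Γ k ∈ Fam C w μ h κ₀)
    (hi : ∀ k l, k ≠ l → ∀ s s', ¬ Tang C (Γ k) (Γ l) s s') :
    (n : ℝ) * (κ₀ * h) ≤ μ.real univ := by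
  have : NullSingletonClass μ := ⟨hμ⟩
  set B : Fin n → Set S := fun k => Γ k '' Icc (-(h / 2)) (h / 2) with hB
  have hcl : ∀ k, MeasurableSet (B k) := fun k =>
    (isCompact_Icc.image (hΓ k).1.1).isClosed.measurableSet
  have hmass : ∀ k, ENNReal.ofReal (κ₀ * h) ≤ μ (B k) := by
    intro k
    obtain ⟨κ, hκ1, hκ2⟩ := (hΓ k).2
    have h1 := hκ2 (Icc (-(h / 2)) (h / 2)) measurableSet_Icc (by
      intro x hx
      exact ⟨by linarith [hx.1], by linarith [hx.2]⟩)
    have hκ' : κ₀ ≤ κ := hκ1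
    rw [hB]
    simp only
    rw [h1, Real.volume_Icc, ← ENNReal.ofReal_mul (by linarith)]
    apply ENNReal.ofReal_le_ofReal
    have e : h / 2 - -(h / 2) = h := by ring
    rw [e]
    exact mul_le_mul_of_nonneg_right hκ' hh.le
  have hdisj : ∀ k l, k ≠ l → AEDisjoint μ (B k) (B l) := by
    intro k l hkl
    have hc := (cross_countable C hw hp (hΓ k).1 (hΓ l).1).image (fun p : ℝ × ℝ => Γ k p.1)
    refine (hc.mono ?_).measure_zero μ
    rintro x ⟨⟨s, -, hs⟩, ⟨s', -, hs'⟩⟩
    exact ⟨(s, s'), ⟨by show Γ k s = Γ l s'; rw [hs, hs'], hi k l hkl s s'⟩, hs⟩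
  have hsum : μ (⋃ k ∈ (Finset.univ : Finset (Fin n)), B k) = ∑ k, μ (B k) :=
    measure_biUnion_finset₀ (fun k _ l _ hkl => hdisj k l hkl) (fun k _ => (hcl k).nullMeasurableSet)
  have h2 : (n : ENNReal) * ENNReal.ofReal (κ₀ * h) ≤ μ univ := by
    calc (n : ENNReal) * ENNReal.ofReal (κ₀ * h) = ∑ _k : Fin n, ENNReal.ofReal (κ₀ * h) := by
          rw [Finset.sum_const, Finset.card_univ, Fintype.card_fin, nsmul_eq_mul]
      _ ≤ ∑ k, μ (B k) := Finset.sum_le_sum fun k _ => hmass k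
      _ = μ (⋃ k ∈ (Finset.univ : Finset (Fin n)), B k) := hsum.symm
      _ ≤ μ univ := measure_mono (subset_univ _)
  have h3 := ENNReal.toReal_mono (measure_ne_top μ univ) h2
  rw [ENNReal.toReal_mul, ENNReal.toReal_natCast, ENNReal.toReal_ofReal (by positivity)] at h3
  exact h3

theorem finite_classes (C : CSurf S) {w : S → ℝ} (hw : C.IsSmooth w) (hp : ∀ x, 0 < w x) {μ : Measure S}
    [IsFiniteMeasure μ] (hμ : ∀ x, μ {x} = 0) {h κ₀ : ℝ} (hh : 0 < h) (hκ : 0 < κ₀) :
    ∃ (n : ℕ) (Γ : Fin n → ℝ → S), (∀ k, Γ k ∈ Fam C w μ h κ₀) ∧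
      (∀ k l, k ≠ l → ∀ s s', ¬ Tang C (Γ k) (Γ l) s s') ∧
      ∀ γ ∈ Fam C w μ h κ₀, ∃ k s, (∀ r, γ r = Γ k (s + r)) ∨ ∀ r, γ r = Γ k (s - r) := by
  classical
  let P : ℕ → Prop := fun n => ∃ Γ : Fin n → ℝ → S, (∀ k, Γ k ∈ Fam C w μ h κ₀) ∧
      (∀ k l, k ≠ l → ∀ s s', ¬ Tang C (Γ k) (Γ l) s s')
  have hP0 : P 0 := ⟨fun k => k.elim0, fun k => k.elim0, fun k => k.elim0⟩
  obtain ⟨M, hM⟩ := exists_nat_ge (μ.real univ / (κ₀ * h))
  have hPM : ∀ n, P n → n ≤ M := by
    rintro n ⟨Γ, h1, h2⟩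
    have h3 := g06_bound C hw hp hμ hh hκ h1 h2
    have h4 : (n : ℝ) ≤ μ.real univ / (κ₀ * h) := by
      rw [le_div_iff₀ (by positivity)]
      exact h3
    exact_mod_cast h4.trans hM
  obtain ⟨Γ, h1, h2⟩ : P (Nat.findGreatest P M) := Nat.findGreatest_spec (Nat.zero_le M) hP0
  refine ⟨Nat.findGreatest P M, Γ, h1, h2, fun γ hγ => ?_⟩
  have hex : ∃ k s s', Tang C γ (Γ k) s s' := by
    by_contra hcon
    push Not at hcon
    have hP' : P (Nat.findGreatest P M + 1) := by
      refine ⟨Fin.cons γ Γ, fun k => ?_, fun k l hkl s s' => ?_⟩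
      · refine Fin.cases ?_ (fun k => ?_) k
        · exact hγ
        · exact h1 k
      · revert hkl
        refine Fin.cases ?_ (fun k => ?_) k
        · refine Fin.cases ?_ (fun l => ?_) l
          · intro hkl
            exact absurd rfl hkl
          · intro _
            exact hcon l s s'
        · refine Fin.cases ?_ (fun l => ?_) l
          · intro _ hT
            exact hcon k s' s (tang_symm C hT)
          · intro hkl
            exact h2 k l (fun hc => hkl (by rw [hc])) s s'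
    have h3 := Nat.le_findGreatest (hPM _ hP') hP'
    omega
  obtain ⟨k, s, s', hT⟩ := hex
  rcases tang_eq C hw hp hγ.1 (h1 k).1 hT with h3 | h3
  · refine ⟨k, s' - s, Or.inl fun r => ?_⟩
    have h4 := h3 (r - s)
    have e1 : s + (r - s) = r := by ring
    have e2 : s' + (r - s) = s' - s + r := by ring
    rw [e1, e2] at h4
    exact h4
  · refine ⟨k, s' + s, Or.inr fun r => ?_⟩
    have h4 := h3 (r - s)
    have e1 : s + (r - s) = r := by ring
    have e2 : s' - (r - s) = s' + s - r := by ring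
    rw [e1, e2] at h4
    exact h4

end Pool.Agent.Helper53.CL.G
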