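import Pool.Agent.Helper53.CL.G.G06

/-!
# CL-G07: massive geodesics are massive everywhere, with the same density (about 250 lines)

Fix `k`, `γ = Γ k`, `κ ≥ κ₀` with `MassAt μ γ κ h 0`.
Claim: if `MassAt μ γ κ h s` then `MassAt μ γ κ h s₁` for almost every `s₁ ∈ Ioo (s - h) (s + h)`.
Proof: let `N` be a Borel `μ` null set containing the exceptional set of `H` (`toMeasurable`).  `A = γ ⁻¹' N ∩ Ioo` is Borel
and `κ |A| = μ (γ '' A) ≤ μ N = 0`, so `|A| = 0`.  For `s₁ ∉ A` there is `σ ∈ Fam` with `σ 0 = γ s₁`, and `l, s₂` with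
`σ r = Γ l (s₂ + r)` for all `r`, or `σ r = Γ l (s₂ - r)` for all `r`; so `Γ l s₂ = γ s₁ = Γ k s₁`.  If `l ≠ k` then `(s₁, s₂)`
is in the countable set of `cross_countable` for `(Γ k, Γ l)` (not `Tang` by assumption): countably many `s₁`.  If `l = k` and
`¬ Tang C γ γ s₁ s₂`: again countably many `s₁`.  If `l = k` and `Tang C γ γ s₁ s₂`, then by `tang_eq` and `not_reverse`
`γ (s₁ + r) = γ (s₂ + r)` for all `r`, so `σ r = γ (s₁ ± r)`.  Then `MassAt μ σ κ' h 0` says `MassAt μ γ κ' h s₁` (images of `A`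
under `r ↦ s₁ ± r` have the same volume), `κ' ≥ κ₀`, and on the overlap of the two intervals, of positive length, both
formulas hold, so `κ = κ'`.
Hence `J = {s | MassAt μ γ κ h s}` contains `0` and with `s` also a point of `(s + h/4, s + h/2)` and one of
`(s - h/2, s - h/4)`.  So for every `T` there is `s ∈ J` with `|s - T| ≤ h/2` (induction), and
`Ioo (T - h/2) (T + h/2) ⊆ Ioo (s - h) (s + h)`.
-/

namespace Pool.Agent.Helper53.CL.G

open MeasureTheory Filter Topology Metric Set Pool.Agent.Helper53.CL.F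
open scoped ContDiff Real ENNReal

variable {S : Type*} [TopologicalSpace S] [MeasurableSpace S] [T2Space S] [CompactSpace S] [BorelSpace S]

omit [T2Space S] [CompactSpace S] [BorelSpace S] [TopologicalSpace S] in
private lemma h45_transport {μ : Measure S} {γ σ : ℝ → S} {κ h s₁ : ℝ}
    (hσ : (∀ r, σ r = γ (s₁ + r)) ∨ ∀ r, σ r = γ (s₁ - r)) (hm : MassAt μ σ κ h 0) :
    MassAt μ γ κ h s₁ := by
  intro A hA hAs
  rcases hσ with hσ | hσ
  · have e1 : γ '' A = σ '' ((fun r => s₁ + r) ⁻¹' A) := by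
      ext x
      constructor
      · rintro ⟨t, ht, rfl⟩
        refine ⟨t - s₁, ?_, ?_⟩
        · rw [mem_preimage]
          have : s₁ + (t - s₁) = t := by ring
          rwa [this]
        · rw [hσ]
          congr 1
          ring
      · rintro ⟨r, hr, rfl⟩
        exact ⟨s₁ + r, hr, (hσ r).symm⟩
    have hm' : MeasurableSet ((fun r => s₁ + r) ⁻¹' A) := (measurable_const_add s₁) hA
    have hsub : (fun r => s₁ + r) ⁻¹' A ⊆ Ioo (0 - h) (0 + h) := by
      intro r hr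
      have h1 := hAs hr
      rw [mem_Ioo] at h1 ⊢
      constructor <;> linarith [h1.1, h1.2]
    rw [e1, hm _ hm' hsub, measure_preimage_add]
  · have e1 : γ '' A = σ '' ((fun r => s₁ - r) ⁻¹' A) := by
      ext x
      constructor
      · rintro ⟨t, ht, rfl⟩
        refine ⟨s₁ - t, ?_, ?_⟩
        · rw [mem_preimage]
          have : s₁ - (s₁ - t) = t := by ring
          rwa [this]
        · rw [hσ]
          congr 1
          ring
      · rintro ⟨r, hr, rfl⟩
        exact ⟨s₁ - r, hr, (hσ r).symm⟩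
    have hm' : MeasurableSet ((fun r => s₁ - r) ⁻¹' A) := (measurable_const_sub s₁) hA
    have hsub : (fun r => s₁ - r) ⁻¹' A ⊆ Ioo (0 - h) (0 + h) := by
      intro r hr
      have h1 := hAs hr
      rw [mem_Ioo] at h1 ⊢
      constructor <;> linarith [h1.1, h1.2]
    have e2 : volume ((fun r => s₁ - r) ⁻¹' A) = volume A :=
      (Measure.measurePreserving_sub_left volume s₁).measure_preimage hA.nullMeasurableSet
    rw [e1, hm _ hm' hsub, e2]

omit [T2Space S] [CompactSpace S] [BorelSpace S] [TopologicalSpace S] in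
private lemma h45_same {μ : Measure S} {γ : ℝ → S} {κ κ' h s s₁ : ℝ} (hκ : 0 < κ) (hκ' : 0 < κ')
    (hs : s₁ ∈ Ioo (s - h) (s + h)) (hm : MassAt μ γ κ h s) (hm' : MassAt μ γ κ' h s₁) :
    κ' = κ := by
  rw [mem_Ioo] at hs
  obtain ⟨I, hI⟩ : ∃ I, I = Ioo (max (s - h) (s₁ - h)) (min (s + h) (s₁ + h)) := ⟨_, rfl⟩
  have h1 : max (s - h) (s₁ - h) < min (s + h) (s₁ + h) := by
    rw [max_lt_iff, lt_min_iff, lt_min_iff]
    refine ⟨⟨?_, ?_⟩, ⟨?_, ?_⟩⟩ <;> linarith [hs.1, hs.2]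
  have e1 := hm I (by rw [hI]; exact measurableSet_Ioo)
    (by rw [hI]; exact Ioo_subset_Ioo (le_max_left _ _) (min_le_left _ _))
  have e2 := hm' I (by rw [hI]; exact measurableSet_Ioo)
    (by rw [hI]; exact Ioo_subset_Ioo (le_max_right _ _) (min_le_right _ _))
  rw [e1] at e2
  have hv : volume I = ENNReal.ofReal (min (s + h) (s₁ + h) - max (s - h) (s₁ - h)) := by
    rw [hI, Real.volume_Ioo]
  have hv0 : volume I ≠ 0 := by
    rw [hv]
    simp only [ne_eq, ENNReal.ofReal_eq_zero, not_le]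
    linarith
  have hvt : volume I ≠ ⊤ := by
    rw [hv]
    exact ENNReal.ofReal_ne_top
  have e3 := (ENNReal.mul_left_inj hv0 hvt).1 e2
  rw [ENNReal.ofReal_eq_ofReal_iff hκ.le hκ'.le] at e3
  exact e3.symm

theorem mass_everywhere (C : CSurf S) {w : S → ℝ} (hw : C.IsSmooth w) (hp : ∀ x, 0 < w x) {μ : Measure S}
    [IsFiniteMeasure μ] {h κ₀ : ℝ} (hh : 0 < h) (hκ : 0 < κ₀)
    (H : ∀ᵐ x ∂μ, ∃ γ ∈ Fam C w μ h κ₀, γ 0 = x) {n : ℕ} {Γ : Fin n → ℝ → S} (h1 : ∀ k, Γ k ∈ Fam C w μ h κ₀)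
    (h2 : ∀ k l, k ≠ l → ∀ s s', ¬ Tang C (Γ k) (Γ l) s s')
    (h3 : ∀ γ ∈ Fam C w μ h κ₀, ∃ k s, (∀ r, γ r = Γ k (s + r)) ∨ ∀ r, γ r = Γ k (s - r)) (k : Fin n) :
    ∃ κ ≥ κ₀, ∀ T, MassAt μ (Γ k) κ (h / 2) T := by
  obtain ⟨γ, hγdef⟩ : ∃ γ, γ = Γ k := ⟨_, rfl⟩
  have hγF := h1 k
  rw [← hγdef] at hγF ⊢
  obtain ⟨hγ, κ, hκ1, hm0⟩ := hγF
  have hκ0 : 0 < κ := lt_of_lt_of_le hκ hκ1
  -- the exceptional null set
  obtain ⟨N, hN⟩ : ∃ N, N = toMeasurable μ {x | ¬ ∃ γ ∈ Fam C w μ h κ₀, γ 0 = x} := ⟨_, rfl⟩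
  have hN0 : μ N = 0 := by
    rw [hN, measure_toMeasurable]
    exact H
  have hNm : MeasurableSet N := by
    rw [hN]
    exact measurableSet_toMeasurable _ _
  have hNsub : ∀ x, x ∉ N → ∃ γ ∈ Fam C w μ h κ₀, γ 0 = x := by
    intro x hx
    by_contra hcon
    apply hx
    rw [hN]
    exact subset_toMeasurable _ _ hcon
  -- the countable set of crossings
  have hQ : (⋃ l, Prod.fst '' {p : ℝ × ℝ | γ p.1 = Γ l p.2 ∧ ¬ Tang C γ (Γ l) p.1 p.2}).Countable :=
    countable_iUnion fun l => (cross_countable C hw hp hγ (h1 l).1).image _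
  have claim : ∀ s, MassAt μ γ κ h s →
      volume {s₁ | s₁ ∈ Ioo (s - h) (s + h) ∧ ¬ MassAt μ γ κ h s₁} = 0 := by
    intro s hs
    have hA : volume (γ ⁻¹' N ∩ Ioo (s - h) (s + h)) = 0 := by
      have hAm : MeasurableSet (γ ⁻¹' N ∩ Ioo (s - h) (s + h)) :=
        (hγ.1.measurable hNm).inter measurableSet_Ioo
      have e1 := hs _ hAm inter_subset_right
      have e2 : μ (γ '' (γ ⁻¹' N ∩ Ioo (s - h) (s + h))) = 0 :=
        measure_mono_null (image_subset_iff.2 inter_subset_left) hN0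
      rw [e2] at e1
      rcases mul_eq_zero.1 e1.symm with e3 | e3
      · rw [ENNReal.ofReal_eq_zero] at e3
        linarith
      · exact e3
    refine measure_mono_null ?_ (measure_union_null hA (hQ.measure_zero volume))
    rintro s₁ ⟨hs₁, hnot⟩
    by_contra hcon
    rw [mem_union, not_or] at hcon
    obtain ⟨hc1, hc2⟩ := hcon
    have hγs₁ : γ s₁ ∉ N := fun h => hc1 ⟨h, hs₁⟩
    obtain ⟨σ, hσF, hσ0⟩ := hNsub _ hγs₁
    obtain ⟨l, s₂, hl⟩ := h3 σ hσF
    have hl0 : γ s₁ = Γ l s₂ := by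
      rw [← hσ0]
      rcases hl with hl | hl
      · have := hl 0
        rwa [add_zero] at this
      · have := hl 0
        rwa [sub_zero] at this
    have htang : Tang C γ (Γ l) s₁ s₂ := by
      by_contra hT
      exact hc2 (mem_iUnion.2 ⟨l, (s₁, s₂), ⟨hl0, hT⟩, rfl⟩)
    have hlk : l = k := by
      by_contra hne
      rw [hγdef] at htang
      exact h2 k l (fun h => hne h.symm) s₁ s₂ htang
    rw [hlk, ← hγdef] at htang hl
    have heq : ∀ r, γ (s₁ + r) = γ (s₂ + r) := by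
      rcases tang_eq C hw hp hγ hγ htang with h | h
      · exact h
      · exact absurd h (not_reverse C hγ s₁ s₂)
    have hσ' : (∀ r, σ r = γ (s₁ + r)) ∨ ∀ r, σ r = γ (s₁ - r) := by
      rcases hl with hl | hl
      · left
        intro r
        rw [hl, heq]
      · right
        intro r
        rw [hl, sub_eq_add_neg, sub_eq_add_neg, heq]
    obtain ⟨_, κ', hκ', hm'⟩ := hσF
    have hm'' := h45_transport hσ' hm'
    have hκκ := h45_same hκ0 (lt_of_lt_of_le hκ hκ') hs₁ hs hm''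
    rw [hκκ] at hm''
    exact hnot hm''
  -- points of `J` in open intervals
  have pick : ∀ s, MassAt μ γ κ h s → ∀ a b, a < b → s - h ≤ a → b ≤ s + h →
      ∃ s₁ ∈ Ioo a b, MassAt μ γ κ h s₁ := by
    intro s hs a b hab ha hb
    by_contra hcon
    push Not at hcon
    have h4 : Ioo a b ⊆ {s₁ | s₁ ∈ Ioo (s - h) (s + h) ∧ ¬ MassAt μ γ κ h s₁} :=
      fun s₁ hs₁ => ⟨Ioo_subset_Ioo ha hb hs₁, hcon s₁ hs₁⟩
    have h5 := measure_mono_null h4 (claim s hs)
    rw [Real.volume_Ioo, ENNReal.ofReal_eq_zero] at h5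
    linarith
  have chain : ∀ (m : ℕ) (s T : ℝ), MassAt μ γ κ h s → |T - s| ≤ h / 2 + m * (h / 4) →
      ∃ s₁, MassAt μ γ κ h s₁ ∧ |s₁ - T| ≤ h / 2 := by
    intro m
    induction m with
    | zero =>
      intro s T hs hT
      refine ⟨s, hs, ?_⟩
      rw [abs_sub_comm]
      simpa using hT
    | succ m ih =>
      intro s T hs hT
      push_cast at hT
      by_cases h6 : |T - s| ≤ h / 2
      · exact ⟨s, hs, by rwa [abs_sub_comm]⟩
      · push Not at h6
        rcases lt_or_ge s T with h7 | h7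
        · rw [abs_of_pos (by linarith)] at hT h6
          obtain ⟨s', ⟨h8, h9⟩, h10⟩ := pick s hs (s + h / 4) (s + h / 2) (by linarith)
            (by linarith) (by linarith)
          refine ih s' T h10 ?_
          rw [abs_of_pos (by linarith)]
          linarith
        · rw [abs_of_nonpos (by linarith)] at hT h6
          obtain ⟨s', ⟨h8, h9⟩, h10⟩ := pick s hs (s - h / 2) (s - h / 4) (by linarith)
            (by linarith) (by linarith)
          refine ih s' T h10 ?_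
          rw [abs_of_nonpos (by linarith)]
          linarith
  refine ⟨κ, hκ1, fun T A hA hAs => ?_⟩
  obtain ⟨m, hm⟩ := exists_nat_ge (|T| / (h / 4))
  have hmT : |T - 0| ≤ h / 2 + m * (h / 4) := by
    rw [div_le_iff₀ (by positivity)] at hm
    rw [sub_zero]
    linarith
  obtain ⟨s, hs, hsT⟩ := chain m 0 T hm0 hmT
  refine hs A hA (hAs.trans (Ioo_subset_Ioo ?_ ?_))
  · linarith [(abs_le.1 hsT).1, (abs_le.1 hsT).2]
  · linarith [(abs_le.1 hsT).1, (abs_le.1 hsT).2]

end Pool.Agent.Helper53.CL.G
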