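import Pool.Agent.Helper53.CL.G.G04

/-!
# CL-G08: massive geodesics are closed, and their integrals (about 250 lines)

`mass_periodic`: suppose `γ` has no period `P > 0`.  Then `Tang C γ γ s s'` with `s ≠ s'` is impossible: `tang_eq` gives
`γ (s + r) = γ (s' + r)` for all `r`, a period `|s - s'|`, or a reversal, excluded by `not_reverse`.  So
`{(s, s') | s ≠ s', γ s = γ s'}` is countable (`cross_countable`).  The sets `A_n = γ '' Ico (n h) ((n + 1) h)` have mass `κ h`
(`MassAt` about `T = (n + 1/2) h`) and pairwise countable, hence null, intersections, so `N κ h ≤ μ univ` for all `N`.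
Contradiction.

`integral_range_nonneg`: the periods of `γ` form a closed subgroup of `ℝ` (`γ` continuous), not dense (`geo_inj`: no periods in
`(0, δ)`), so it is `ℤ P` with `P > 0` (`AddSubgroup.dense_or_cyclic`, `mass_periodic`).  For `s, s' ∈ Ico 0 P`, `s ≠ s'`,
`γ s = γ s'` is never `Tang`, so the set of such pairs is countable; cut `Ico 0 P` into finitely many intervals of length
`< h`; by `MassAt` and null overlaps `μ (γ '' A) = κ |A|` for all Borel `A ⊆ Ico 0 P`.  So for Borel `B ⊆ S`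
`μ (B ∩ range γ) = μ (γ '' (γ ⁻¹' B ∩ Ico 0 P)) = κ |γ ⁻¹' B ∩ Ico 0 P|`, that is
`μ.restrict (range γ) = κ • (volume.restrict (Ico 0 P)).map γ`, and `∫ x in range γ, b x ∂μ = κ ∫ s in 0..P, b (γ s) ≥ 0`.
`range γ` is compact.
-/

namespace Pool.Agent.Helper53.CL.G

open MeasureTheory Filter Topology Metric Set Pool.Agent.Helper53.CL.F
open scoped ContDiff Real ENNReal

variable {S : Type*} [TopologicalSpace S] [MeasurableSpace S] [T2Space S] [CompactSpace S] [BorelSpace S]

omit [MeasurableSpace S] [T2Space S] [CompactSpace S] [BorelSpace S] [TopologicalSpace S] in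
private lemma h45_period_of_lt {γ : ℝ → S} {s s' : ℝ} (hr : ∀ r, γ (s + r) = γ (s' + r)) (t : ℝ) :
    γ (t + (s' - s)) = γ t := by
  have h := hr (t - s)
  have e1 : s + (t - s) = t := by ring
  have e2 : s' + (t - s) = t + (s' - s) := by ring
  rw [e1, e2] at h
  exact h.symm

omit [CompactSpace S] [BorelSpace S] in
/-- tangent at two different times: the distance of the times is a period -/
private lemma h45_tang_period (C : CSurf S) {w : S → ℝ} (hw : C.IsSmooth w) (hp : ∀ x, 0 < w x)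
    {γ : ℝ → S} (hγ : C.IsGeo w γ) {s s' : ℝ} (h : Tang C γ γ s s') :
    ∀ t, γ (t + |s' - s|) = γ t := by
  have heq : ∀ r, γ (s + r) = γ (s' + r) := by
    rcases tang_eq C hw hp hγ hγ h with h | h
    · exact h
    · exact absurd h (not_reverse C hγ s s')
  intro t
  rcases le_or_gt s s' with h1 | h1
  · rw [abs_of_nonneg (by linarith)]
    exact h45_period_of_lt heq t
  · rw [abs_of_neg (by linarith), neg_sub]
    exact h45_period_of_lt (fun r => (heq r).symm) t

omit [T2Space S] [CompactSpace S] [BorelSpace S] [TopologicalSpace S] in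
private lemma h45_mass_sub {μ : Measure S} {γ : ℝ → S} {κ h : ℝ} (hh : 0 < h)
    (hm : ∀ T, MassAt μ γ κ h T) {A : Set ℝ} (hA : MeasurableSet A) {n : ℕ}
    (hAs : A ⊆ Icc (n * h) ((n + 1) * h)) : μ (γ '' A) = ENNReal.ofReal κ * volume A := by
  refine hm ((n + 1 / 2) * h) A hA (hAs.trans ?_)
  intro t ht
  rw [mem_Icc] at ht
  rw [mem_Ioo]
  constructor <;> nlinarith [ht.1, ht.2]

theorem mass_periodic (C : CSurf S) {w : S → ℝ} (hw : C.IsSmooth w) (hp : ∀ x, 0 < w x) {μ : Measure S}
    [IsFiniteMeasure μ] (hμ : ∀ x, μ {x} = 0) {γ : ℝ → S} (hγ : C.IsGeo w γ) {κ h : ℝ} (hκ : 0 < κ) (hh : 0 < h)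
    (hm : ∀ T, MassAt μ γ κ h T) : ∃ P > 0, ∀ t, γ (t + P) = γ t := by
  by_contra hcon
  push Not at hcon
  have : NullSingletonClass μ := ⟨hμ⟩
  have hZ : {p : ℝ × ℝ | p.1 ≠ p.2 ∧ γ p.1 = γ p.2}.Countable := by
    refine (cross_countable C hw hp hγ hγ).mono ?_
    rintro ⟨s, s'⟩ ⟨h1, h2⟩
    refine ⟨h2, fun hT => ?_⟩
    obtain ⟨t, ht⟩ := hcon |s' - s| (abs_pos.2 (sub_ne_zero.2 (Ne.symm h1)))
    exact ht (h45_tang_period C hw hp hγ hT t)
  obtain ⟨A, hA⟩ : ∃ A : ℕ → Set S, A = fun n : ℕ => γ '' Icc ((n : ℝ) * h) ((n + 1) * h) := ⟨_, rfl⟩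
  have hAc : ∀ n, IsCompact (A n) := by
    intro n
    rw [hA]
    exact isCompact_Icc.image hγ.1
  have hAm : ∀ n, NullMeasurableSet (A n) μ := fun n => (hAc n).measurableSet.nullMeasurableSet
  have hAμ : ∀ n, μ (A n) = ENNReal.ofReal κ * ENNReal.ofReal h := by
    intro n
    rw [hA]
    have e1 := h45_mass_sub hh hm (A := Icc ((n : ℝ) * h) ((n + 1) * h)) measurableSet_Icc
      (n := n) (subset_refl _)
    rw [Real.volume_Icc] at e1
    have e2 : ((n : ℝ) + 1) * h - n * h = h := by ring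
    rw [e2] at e1
    exact e1
  have hdis : Pairwise (Function.onFun (AEDisjoint μ) A) := by
    intro m n hmn
    have h1 : A m ∩ A n ⊆ (γ '' (Prod.fst '' {p : ℝ × ℝ | p.1 ≠ p.2 ∧ γ p.1 = γ p.2})) ∪
        {γ ((m : ℝ) * h), γ (((m : ℝ) + 1) * h)} := by
      rw [hA]
      rintro x ⟨⟨s, hs, rfl⟩, ⟨s', hs', hss⟩⟩
      by_cases h2 : s = s'
      · right
        rw [← h2] at hs'
        rw [mem_Icc] at hs hs'
        rcases lt_or_gt_of_ne hmn with h3 | h3
        · have h4 : (m : ℝ) + 1 ≤ n := by exact_mod_cast h3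
          have h5 : s = ((m : ℝ) + 1) * h := by
            have := mul_le_mul_of_nonneg_right h4 hh.le
            linarith [hs.2, hs'.1]
          rw [h5]
          simp
        · have h4 : (n : ℝ) + 1 ≤ m := by exact_mod_cast h3
          have h5 : s = (m : ℝ) * h := by
            have := mul_le_mul_of_nonneg_right h4 hh.le
            linarith [hs.1, hs'.2]
          rw [h5]
          simp
      · left
        exact ⟨s, ⟨(s, s'), ⟨h2, hss.symm⟩, rfl⟩, rfl⟩
    have h2 : ((γ '' (Prod.fst '' {p : ℝ × ℝ | p.1 ≠ p.2 ∧ γ p.1 = γ p.2})) ∪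
        {γ ((m : ℝ) * h), γ (((m : ℝ) + 1) * h)}).Countable :=
      ((hZ.image _).image _).union (Set.toFinite _).countable
    exact measure_mono_null h1 (h2.measure_zero μ)
  have h3 := measure_iUnion₀ hdis hAm
  simp only [hAμ] at h3
  have h4 : ENNReal.ofReal κ * ENNReal.ofReal h ≠ 0 := by
    simp only [ne_eq, mul_eq_zero, ENNReal.ofReal_eq_zero, not_or, not_le]
    exact ⟨hκ, hh⟩
  rw [ENNReal.tsum_const_eq_top_of_ne_zero h4] at h3
  exact measure_ne_top μ _ h3

theorem integral_range_nonneg (C : CSurf S) {w : S → ℝ} (hw : C.IsSmooth w) (hp : ∀ x, 0 < w x) {μ : Measure S}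
    [IsFiniteMeasure μ] (hμ : ∀ x, μ {x} = 0) {γ : ℝ → S} (hγ : C.IsGeo w γ) {κ h : ℝ} (hκ : 0 < κ) (hh : 0 < h)
    (hm : ∀ T, MassAt μ γ κ h T) {b : S → ℝ} (hb : Continuous b)
    (hbn : ∀ P, 0 < P → (∀ t, γ (t + P) = γ t) → 0 ≤ ∫ s in (0 : ℝ)..P, b (γ s)) :
    IsCompact (range γ) ∧ 0 ≤ ∫ x in range γ, b x ∂μ := by
  have : NullSingletonClass μ := ⟨hμ⟩
  obtain ⟨P₀, hP₀, hper₀⟩ := mass_periodic C hw hp hμ hγ hκ hh hm
  -- the minimal period
  obtain ⟨G, hG⟩ : ∃ G : AddSubgroup ℝ, ∀ P, P ∈ G ↔ ∀ t, γ (t + P) = γ t :=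
    ⟨{ carrier := {P | ∀ t, γ (t + P) = γ t}
       zero_mem' := fun t => by rw [add_zero]
       add_mem' := fun {a b} ha hb t => by
        rw [← add_assoc, hb, ha]
       neg_mem' := fun {a} ha t => by
        have := ha (t + -a)
        rw [← this]
        congr 1
        ring }, fun P => Iff.rfl⟩
  obtain ⟨δ, hδ, hinj⟩ := geo_inj C hγ 0
  have hsmall : ∀ P, 0 < P → P ∈ G → δ ≤ P := by
    intro P hP hPG
    by_contra hlt
    push Not at hlt
    have h1 : γ P = γ 0 := by
      have := (hG P).1 hPG 0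
      rwa [zero_add] at this
    have h2 : P ∈ Ioo (0 - δ) (0 + δ) := ⟨by linarith, by linarith⟩
    have h3 : (0 : ℝ) ∈ Ioo (0 - δ) (0 + δ) := ⟨by linarith, by linarith⟩
    have h4 := hinj h2 h3 h1
    linarith
  obtain ⟨P, hP, hperP, hmin⟩ : ∃ P > 0, P ∈ G ∧ ∀ Q, 0 < Q → Q ∈ G → P ≤ Q := by
    rcases AddSubgroup.dense_or_cyclic G with hd | ⟨a, ha⟩
    · exfalso
      obtain ⟨Q, hQG, hQ⟩ := hd.exists_mem_open (isOpen_Ioo (a := (0 : ℝ)) (b := δ))
        ⟨δ / 2, by constructor <;> linarith⟩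
      have := hsmall Q hQ.1 hQG
      linarith [hQ.2]
    · have hmem : ∀ Q, Q ∈ G ↔ ∃ n : ℤ, n • a = Q := by
        intro Q
        rw [ha, AddSubgroup.mem_closure_singleton]
      have ha0 : a ≠ 0 := by
        rintro rfl
        obtain ⟨n, hn⟩ := (hmem P₀).1 ((hG P₀).2 hper₀)
        simp at hn
        linarith
      refine ⟨|a|, abs_pos.2 ha0, ?_, ?_⟩
      · have haG : a ∈ G := (hmem a).2 ⟨1, by simp⟩
        rcases abs_choice a with h1 | h1
        · rw [h1]
          exact haG
        · rw [h1]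
          exact G.neg_mem haG
      · intro Q hQ hQG
        obtain ⟨n, rfl⟩ := (hmem Q).1 hQG
        rw [zsmul_eq_mul] at hQ ⊢
        have hn : n ≠ 0 := by
          rintro rfl
          simp at hQ
        have h1 : (1 : ℝ) ≤ |(n : ℝ)| := by
          rw [← Int.cast_abs]
          exact_mod_cast Int.one_le_abs hn
        calc |a| = 1 * |a| := (one_mul _).symm
          _ ≤ |(n : ℝ)| * |a| := mul_le_mul_of_nonneg_right h1 (abs_nonneg _)
          _ = |(n : ℝ) * a| := (abs_mul _ _).symm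
          _ = n * a := abs_of_pos hQ
  have hper := (hG P).1 hperP
  have hperZ : ∀ (n : ℤ) (t : ℝ), γ (t + n * P) = γ t := by
    intro n t
    have h1 : (n * P : ℝ) ∈ G := by
      rw [← zsmul_eq_mul]
      exact G.zsmul_mem hperP n
    exact (hG _).1 h1 t
  -- the range
  have hrange : range γ = γ '' Ico 0 P := by
    refine Subset.antisymm ?_ (image_subset_range _ _)
    rintro _ ⟨t, rfl⟩
    refine ⟨t - ⌊t / P⌋ * P, ⟨?_, ?_⟩, ?_⟩
    · have := Int.floor_le (t / P)
      rw [le_div_iff₀ hP] at this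
      linarith
    · have := Int.lt_floor_add_one (t / P)
      rw [div_lt_iff₀ hP] at this
      linarith
    · have := hperZ (-⌊t / P⌋) t
      rw [← this]
      congr 1
      push_cast
      ring
  have hcompact : IsCompact (range γ) := by
    have e1 : range γ = γ '' Icc 0 P := by
      refine Subset.antisymm ?_ (image_subset_range _ _)
      rw [hrange]
      exact image_mono Ico_subset_Icc_self
    rw [e1]
    exact isCompact_Icc.image hγ.1
  refine ⟨hcompact, ?_⟩
  -- injectivity off a countable set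
  obtain ⟨D, hD⟩ : ∃ D : Set ℝ, D = Prod.fst '' {p : ℝ × ℝ | γ p.1 = γ p.2 ∧ ¬ Tang C γ γ p.1 p.2} :=
    ⟨_, rfl⟩
  have hDc : D.Countable := by
    rw [hD]
    exact (cross_countable C hw hp hγ hγ).image _
  have hinjE : InjOn γ (Ico 0 P \ D) := by
    intro s hs s' hs' hss
    by_contra hne
    have hT : Tang C γ γ s s' := by
      by_contra hT
      apply hs.2
      rw [hD]
      exact ⟨(s, s'), ⟨hss, hT⟩, rfl⟩
    have h1 := hmin _ (abs_pos.2 (sub_ne_zero.2 (Ne.symm hne)))
      ((hG _).2 (h45_tang_period C hw hp hγ hT))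
    have h2 : |s' - s| < P := by
      rw [abs_lt]
      constructor <;> linarith [hs.1.1, hs.1.2, hs'.1.1, hs'.1.2]
    linarith
  have hmassE : ∀ A, MeasurableSet A → A ⊆ Ico 0 P \ D →
      μ (γ '' A) = ENNReal.ofReal κ * volume A := by
    intro A hA hAs
    obtain ⟨I, hI⟩ : ∃ I : ℕ → Set ℝ, I = fun n : ℕ => Ico ((n : ℝ) * h) ((n + 1) * h) := ⟨_, rfl⟩
    have hIm : ∀ n, MeasurableSet (A ∩ I n) := by
      intro n
      rw [hI]
      exact hA.inter measurableSet_Ico
    have hIdis : Pairwise (Function.onFun Disjoint (fun n => A ∩ I n)) := by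
      intro m n hmn
      refine Set.disjoint_left.2 ?_
      rintro t ⟨_, ht⟩ ⟨_, ht'⟩
      rw [hI] at ht ht'
      rw [mem_Ico] at ht ht'
      rcases lt_or_gt_of_ne hmn with h3 | h3
      · have h4 : (m : ℝ) + 1 ≤ n := by exact_mod_cast h3
        have := mul_le_mul_of_nonneg_right h4 hh.le
        linarith [ht.2, ht'.1]
      · have h4 : (n : ℝ) + 1 ≤ m := by exact_mod_cast h3
        have := mul_le_mul_of_nonneg_right h4 hh.le
        linarith [ht.1, ht'.2]
    have hAU : A = ⋃ n, A ∩ I n := by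
      refine Subset.antisymm ?_ (iUnion_subset fun n => inter_subset_left)
      intro t ht
      have ht0 : 0 ≤ t := (hAs ht).1.1
      refine mem_iUnion.2 ⟨⌊t / h⌋₊, ht, ?_⟩
      rw [hI]
      rw [mem_Ico]
      have h5 := Nat.floor_le (div_nonneg ht0 hh.le)
      have h6 := Nat.lt_floor_add_one (t / h)
      rw [le_div_iff₀ hh] at h5
      rw [div_lt_iff₀ hh] at h6
      exact ⟨h5, h6⟩
    have himg : ∀ n, MeasurableSet (γ '' (A ∩ I n)) := fun n =>
      (hIm n).image_of_continuousOn_injOn hγ.1.continuousOn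
        (hinjE.mono (inter_subset_left.trans hAs))
    have himgdis : Pairwise (Function.onFun Disjoint (fun n => γ '' (A ∩ I n))) := by
      intro m n hmn
      have h5 : Disjoint (A ∩ I m) (A ∩ I n) := hIdis hmn
      refine Set.disjoint_left.2 ?_
      rintro _ ⟨t, ht, rfl⟩ ⟨t', ht', htt⟩
      have h6 := hinjE (hAs ht'.1) (hAs ht.1) htt
      rw [h6] at ht'
      exact Set.disjoint_left.1 h5 ht ht'
    calc μ (γ '' A) = μ (⋃ n, γ '' (A ∩ I n)) := by
          rw [← image_iUnion, ← hAU]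
      _ = ∑' n, μ (γ '' (A ∩ I n)) := measure_iUnion himgdis himg
      _ = ∑' n, ENNReal.ofReal κ * volume (A ∩ I n) := by
          refine tsum_congr fun n => ?_
          refine h45_mass_sub hh hm (hIm n) (n := n) ?_
          rw [hI]
          exact inter_subset_right.trans Ico_subset_Icc_self
      _ = ENNReal.ofReal κ * ∑' n, volume (A ∩ I n) := ENNReal.tsum_mul_left
      _ = ENNReal.ofReal κ * volume A := by
          rw [← measure_iUnion hIdis hIm, ← hAU]
  have hmassP : ∀ A, MeasurableSet A → A ⊆ Ico 0 P → μ (γ '' A) = ENNReal.ofReal κ * volume A := by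
    intro A hA hAs
    have e1 : μ (γ '' A) = μ (γ '' (A \ D)) := by
      refine le_antisymm ?_ (measure_mono (image_mono sdiff_subset))
      have h5 : γ '' A ⊆ γ '' (A \ D) ∪ γ '' D := by
        rintro _ ⟨t, ht, rfl⟩
        by_cases htD : t ∈ D
        · exact Or.inr ⟨t, htD, rfl⟩
        · exact Or.inl ⟨t, ⟨ht, htD⟩, rfl⟩
      refine (measure_mono h5).trans ((measure_union_le _ _).trans ?_)
      rw [(hDc.image γ).measure_zero μ, add_zero]
    have e2 : volume (A \ D) = volume A := measure_sdiff_null (hDc.measure_zero volume)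
    rw [e1, hmassE (A \ D) (hA.diff hDc.measurableSet) (sdiff_subset_sdiff_left hAs), e2]
  -- the restricted measure
  have hmeas : Measurable γ := hγ.1.measurable
  have hrestr : μ.restrict (range γ) =
      ENNReal.ofReal κ • (volume.restrict (Ico 0 P)).map γ := by
    ext B hB
    rw [Measure.restrict_apply hB, Measure.smul_apply, Measure.map_apply hmeas hB,
      Measure.restrict_apply (hmeas hB), smul_eq_mul, ← hmassP _ ((hmeas hB).inter measurableSet_Ico)
        inter_subset_right]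
    congr 1
    rw [image_preimage_inter, hrange]
  rw [hrestr, integral_smul_measure, integral_map hmeas.aemeasurable hb.aestronglyMeasurable,
    integral_Ico_eq_integral_Ioc, ← intervalIntegral.integral_of_le hP.le,
    ENNReal.toReal_ofReal hκ.le, smul_eq_mul]
  exact mul_nonneg hκ.le (hbn P hP hper)

end Pool.Agent.Helper53.CL.G
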