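import Pool.Agent.Helper53.CL.G.G07
import Pool.Agent.Helper53.CL.G.G08

/-!
# CL-G10: the measure is carried by closed geodesics (about 100 lines)

Take `n, Γ` from `finite_classes`, `κ k` from `mass_everywhere`.  By `H` and the third property almost every `x` is in
`⋃ k, range (Γ k)`.  The ranges are compact and have countable, hence null, pairwise intersections (`cross_countable` and the
second property).  So `∫ b dμ = ∑ k, ∫ x in range (Γ k), b x ∂μ ≥ 0` by `integral_range_nonneg` (`hbn` from `hb`: a geodesic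
with a period `P > 0` is an `IsClosedGeo`).
-/

namespace Pool.Agent.Helper53.CL.G

open MeasureTheory Filter Topology Metric Set Pool.Agent.Helper53.CL.F
open scoped ContDiff Real ENNReal

variable {S : Type*} [TopologicalSpace S] [MeasurableSpace S] [T2Space S] [CompactSpace S] [BorelSpace S]

theorem mass_main (C : CSurf S) {w : S → ℝ} (hw : C.IsSmooth w) (hp : ∀ x, 0 < w x) {μ : Measure S}
    [IsFiniteMeasure μ] (hμ : ∀ x, μ {x} = 0) {h κ₀ : ℝ} (hh : 0 < h) (hκ : 0 < κ₀)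
    (H : ∀ᵐ x ∂μ, ∃ γ ∈ Fam C w μ h κ₀, γ 0 = x) {b : S → ℝ} (hb : Continuous b)
    (hbn : ∀ γ T, C.IsClosedGeo w γ T → 0 ≤ ∫ s in (0 : ℝ)..T, b (γ s)) : 0 ≤ ∫ x, b x ∂μ := by
  classical
  obtain ⟨n, Γ, h1, h2, h3⟩ := finite_classes C hw hp hμ hh hκ
  have hex : ∀ k, ∃ κ ≥ κ₀, ∀ T, MassAt μ (Γ k) κ (h / 2) T :=
    mass_everywhere C hw hp hh hκ H h1 h2 h3
  choose κ hκ1 hκ2 using hex
  have hR : ∀ k, IsCompact (range (Γ k)) ∧ 0 ≤ ∫ x in range (Γ k), b x ∂μ := fun k =>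
    integral_range_nonneg C hw hp hμ (h1 k).1 (lt_of_lt_of_le hκ (hκ1 k)) (half_pos hh) (hκ2 k) hb
      (fun P hP hper => hbn (Γ k) P ⟨(h1 k).1, hP, hper⟩)
  have : NullSingletonClass μ := ⟨hμ⟩
  have hcov : ∀ᵐ x ∂μ, x ∈ ⋃ k, range (Γ k) := by
    filter_upwards [H] with x hx
    obtain ⟨γ, hγ, hx0⟩ := hx
    obtain ⟨k, s, hs⟩ := h3 γ hγ
    refine mem_iUnion.2 ⟨k, ?_⟩
    rcases hs with hs | hs
    · exact ⟨s + 0, by rw [← hs 0, hx0]⟩
    · exact ⟨s - 0, by rw [← hs 0, hx0]⟩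
  have hint : Integrable b μ := by
    obtain ⟨K, hK⟩ := isCompact_univ.exists_bound_of_continuousOn hb.continuousOn
    exact Integrable.of_bound hb.aestronglyMeasurable K
      (Filter.Eventually.of_forall fun x => hK x (mem_univ x))
  have hm : ∀ k, NullMeasurableSet (range (Γ k)) μ := fun k =>
    (hR k).1.isClosed.measurableSet.nullMeasurableSet
  have hd : Pairwise (Function.onFun (AEDisjoint μ) fun k => range (Γ k)) := by
    intro k l hkl
    have hc := cross_countable C hw hp (h1 k).1 (h1 l).1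
    have hc2 := hc.image (fun p : ℝ × ℝ => Γ k p.1)
    refine measure_mono_null ?_ (hc2.measure_zero μ)
    rintro x ⟨⟨s, hs⟩, ⟨s', hs'⟩⟩
    refine ⟨(s, s'), ⟨?_, h2 k l hkl s s'⟩, hs⟩
    show Γ k s = Γ l s'
    rw [hs, hs']
  have hsum : ∫ x, b x ∂μ = ∑' k, ∫ x in range (Γ k), b x ∂μ := by
    rw [← integral_iUnion_ae hm hd hint.integrableOn, Measure.restrict_eq_self_of_ae_mem hcov]
  rw [hsum]
  exact tsum_nonneg fun k => (hR k).2

end Pool.Agent.Helper53.CL.G
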