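import Pool.Agent.Helper53.CL.F.FDefs

/-!
# Block F of project CL, global part: definitions
-/

namespace Pool.Agent.Helper53.CL.G

open MeasureTheory Filter Topology Metric Set Pool.Agent.Helper53.CL.F
open scoped ContDiff Real ENNReal

variable {S : Type*} [TopologicalSpace S] [MeasurableSpace S]

/-- A geodesic on the open interval `(α, β)`. -/
def GeoOn (C : CSurf S) (w : S → ℝ) (γ : ℝ → S) (α β : ℝ) : Prop :=
  ∀ t ∈ Ioo α β, ContinuousAt γ t ∧ ∀ i, γ t ∈ (C.φ i).source → GA (C.a w i) (C.φ i ∘ γ) t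

/-- The curves `γ` and `σ` are tangent at the times `s`, `s'` (same point and same or opposite velocities). -/
def Tang (C : CSurf S) (γ σ : ℝ → S) (s s' : ℝ) : Prop :=
  γ s = σ s' ∧ ∃ i, γ s ∈ (C.φ i).source ∧
    (deriv (C.φ i ∘ γ) s = deriv (C.φ i ∘ σ) s' ∨ deriv (C.φ i ∘ γ) s = -deriv (C.φ i ∘ σ) s')

/-- The measure `μ` on the arc of `γ` of radius `h` about the time `s` is `κ` times the length. -/
def MassAt (μ : Measure S) (γ : ℝ → S) (κ h s : ℝ) : Prop :=
  ∀ A : Set ℝ, MeasurableSet A → A ⊆ Ioo (s - h) (s + h) → μ (γ '' A) = ENNReal.ofReal κ * volume A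

/-- The geodesics which are massive about the time `0`. -/
def Fam (C : CSurf S) (w : S → ℝ) (μ : Measure S) (h κ₀ : ℝ) : Set (ℝ → S) :=
  {γ | C.IsGeo w γ ∧ ∃ κ ≥ κ₀, MassAt μ γ κ h 0}

end Pool.Agent.Helper53.CL.G
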